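import Mathlib

set_option autoImplicit false
open Polynomial

namespace Pool.Agent.LibHPAlt

/-! ### The equivariant kernel vector and Mestre's identity -/

section Kernel

variable {F : Type} [Field F] {ι : Type} [Fintype ι] [DecidableEq ι]

/-- An equivariant vector in the kernel of the antisymmetric matrix `1 / (x i - x j)` of odd
size. -/
theorem exists_kernel [CharZero F] (hodd : Odd (Fintype.card ι)) (x : ι → F)
    (hx : Function.Injective x) (a : Equiv.Perm ι →* (F ≃+* F))
    (ha : ∀ (σ : Equiv.Perm ι) (i : ι), a σ (x i) = x (σ i)) :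
    ∃ r : ι → F, (∀ i, ∑ j, (x i - x j)⁻¹ * r j = 0) ∧
      (∀ (σ : Equiv.Perm ι) (i : ι), a σ (r i) = r (σ i)) ∧ ∀ i, r i ≠ 0 := by
  classical
  let A : Matrix ι ι F := Matrix.of fun i j => (x i - x j)⁻¹
  have hAt : A.transpose = -A := by
    ext i j
    simp only [A, Matrix.transpose_apply, Matrix.of_apply, Matrix.neg_apply]
    rw [← inv_neg, neg_sub]
  have hdet : A.det = 0 := by
    have h1 : A.det = (-1) ^ Fintype.card ι * A.det := by
      conv_lhs => rw [← Matrix.det_transpose, hAt, Matrix.det_neg]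
    rw [hodd.neg_one_pow] at h1
    have h2 : (2 : F) * A.det = 0 := by linear_combination h1
    exact (mul_eq_zero.mp h2).resolve_left two_ne_zero
  obtain ⟨v, hv0, hv⟩ := Matrix.exists_mulVec_eq_zero_iff.mpr hdet
  have hv' : ∀ i, ∑ j, (x i - x j)⁻¹ * v j = 0 := by
    intro i
    have := congrFun hv i
    simpa [Matrix.mulVec, dotProduct, A] using this
  obtain ⟨i0, hi0⟩ : ∃ i, v i ≠ 0 := by
    by_contra h
    push Not at h
    exact hv0 (funext h)
  -- the averaged vector
  let w : F → ι → F := fun f i => ∑ σ : Equiv.Perm ι, a σ (f * v (σ⁻¹ i))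
  have hainj : Function.Injective (fun σ : Equiv.Perm ι => ((a σ : F ≃+* F) : F →* F)) := by
    intro σ τ h
    ext i
    apply hx
    rw [← ha σ i, ← ha τ i]
    exact DFunLike.congr_fun h (x i)
  have hex : ∃ f, w f i0 ≠ 0 := by
    by_contra hcon
    push Not at hcon
    have hli := linearIndependent_monoidHom F F
    have hli' := hli.comp _ hainj
    rw [Fintype.linearIndependent_iff] at hli'
    have := hli' (fun σ => a σ (v (σ⁻¹ i0))) (by
      funext f
      have := hcon f
      simp only [w, map_mul] at this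
      simp only [Finset.sum_apply, Pi.smul_apply, Function.comp, smul_eq_mul, Pi.zero_apply]
      rw [← this]
      refine Finset.sum_congr rfl fun σ _ => ?_
      rw [mul_comm]
      rfl) 1
    simp only [map_one, inv_one, Equiv.Perm.coe_one, id_eq] at this
    exact hi0 (by simpa using this)
  obtain ⟨f, hf⟩ := hex
  have hequiv : ∀ (τ : Equiv.Perm ι) (i : ι), a τ (w f i) = w f (τ i) := by
    intro τ i
    simp only [w, map_sum]
    rw [← Equiv.sum_comp (Equiv.mulLeft τ) (fun σ => a σ (f * v (σ⁻¹ (τ i))))]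
    refine Finset.sum_congr rfl fun σ _ => ?_
    have h1 : (τ * σ)⁻¹ (τ i) = σ⁻¹ i := by
      simp [mul_inv_rev, Equiv.Perm.mul_apply]
    simp only [Equiv.coe_mulLeft]
    rw [h1, map_mul a]
    rfl
  refine ⟨w f, ?_, hequiv, ?_⟩
  · intro i
    simp only [w, Finset.mul_sum]
    rw [Finset.sum_comm]
    refine Finset.sum_eq_zero fun σ _ => ?_
    have h1 : ∀ j, (x i - x j)⁻¹ * a σ (f * v (σ⁻¹ j)) =
        a σ (f * ((x (σ⁻¹ i) - x (σ⁻¹ j))⁻¹ * v (σ⁻¹ j))) := by
      intro j
      simp only [map_mul, map_inv₀, map_sub, ha]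
      have e1 : ∀ l, σ (σ⁻¹ l) = l := fun l => σ.apply_symm_apply l
      rw [e1, e1]
      ring
    simp_rw [h1]
    rw [← map_sum, ← Finset.mul_sum]
    have h2 : ∑ j, (x (σ⁻¹ i) - x (σ⁻¹ j))⁻¹ * v (σ⁻¹ j) =
        ∑ j, (x (σ⁻¹ i) - x j)⁻¹ * v j :=
      Equiv.sum_comp (σ⁻¹ : Equiv.Perm ι) (fun j => (x (σ⁻¹ i) - x j)⁻¹ * v j)
    rw [h2, hv', mul_zero, map_zero]
  · intro i
    have h1 := hequiv (Equiv.swap i0 i) i0
    rw [Equiv.swap_apply_left] at h1
    rw [← h1]
    exact (map_ne_zero_iff _ (a _).injective).mpr hf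

variable (x r : ι → F)

/-- `P = ∏ (X - x i)`. -/
noncomputable def polP : F[X] := ∏ i, (X - C (x i))

/-- `Q = ∑ r i ^ 2 ∏_{j ≠ i} (X - x j)`. -/
noncomputable def polQ : F[X] := ∑ i, C (r i ^ 2) * ∏ j ∈ Finset.univ.erase i, (X - C (x j))

/-- `R = ∑ r i ∏_{j ≠ i} (X - x j)`. -/
noncomputable def polR : F[X] := ∑ i, C (r i) * ∏ j ∈ Finset.univ.erase i, (X - C (x j))

/-- The cofactor with two factors removed. -/
theorem prod_erase_sub (i j : ι) (hij : i ≠ j) :
    (C (x i) - C (x j)) * ∏ l ∈ (Finset.univ.erase i).erase j, (X - C (x l)) =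
      (∏ l ∈ Finset.univ.erase i, (X - C (x l))) - ∏ l ∈ Finset.univ.erase j, (X - C (x l)) := by
  rw [← Finset.mul_prod_erase (Finset.univ.erase i) _ (Finset.mem_erase.mpr ⟨hij.symm,
    Finset.mem_univ j⟩), ← Finset.mul_prod_erase (Finset.univ.erase j) _ (Finset.mem_erase.mpr
    ⟨hij, Finset.mem_univ i⟩), Finset.erase_right_comm]
  ring

theorem polP_mul (i j : ι) (hij : i ≠ j) :
    polP x * ∏ l ∈ (Finset.univ.erase i).erase j, (X - C (x l)) =
      (∏ l ∈ Finset.univ.erase i, (X - C (x l))) * ∏ l ∈ Finset.univ.erase j, (X - C (x l)) := by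
  rw [polP, ← Finset.mul_prod_erase Finset.univ _ (Finset.mem_univ i)]
  rw [← Finset.mul_prod_erase (Finset.univ.erase j) _ (Finset.mem_erase.mpr
    ⟨hij, Finset.mem_univ i⟩), Finset.erase_right_comm]
  ring

theorem cross_aux {A : Type} [CommRing A] (p w ui uj ri rj d xi xj : A)
    (h2 : (xi - xj) * w = ui - uj) (h3 : p * w = ui * uj) (h5 : d * (xi - xj) = 1) :
    ri * rj * (ui * uj) = p * (ri * (d * rj) * ui) + p * (rj * (-d * ri) * uj) := by
  linear_combination (-(ri * rj)) * h3 + (ri * rj * p * d) * h2 - (ri * rj * p * w) * h5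

/-- Mestre's identity `P' Q - P Q' = R ^ 2`. -/
theorem mestre_identity (hx : Function.Injective x)
    (hr : ∀ i, ∑ j, (x i - x j)⁻¹ * r j = 0) :
    derivative (polP x) * polQ x r - polP x * derivative (polQ x r) = polR x r ^ 2 := by
  classical
  set U : ι → F[X] := fun i => ∏ j ∈ Finset.univ.erase i, (X - C (x j)) with hU
  set W : ι → ι → F[X] := fun i j => ∏ l ∈ (Finset.univ.erase i).erase j, (X - C (x l)) with hW
  have hP : derivative (polP x) = ∑ i, U i := by
    rw [polP, derivative_prod_finset]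
    simp [hU]
  have hdU : ∀ i, derivative (U i) = ∑ j ∈ Finset.univ.erase i, W i j := by
    intro i
    rw [hU]
    simp only
    rw [derivative_prod_finset]
    simp [hW]
  have hQ : polQ x r = ∑ i, C (r i ^ 2) * U i := rfl
  have hR : polR x r = ∑ i, C (r i) * U i := rfl
  have hdQ : derivative (polQ x r) = ∑ i, ∑ j ∈ Finset.univ.erase i, C (r i ^ 2) * W i j := by
    rw [hQ, derivative_sum]
    refine Finset.sum_congr rfl fun i _ => ?_
    rw [derivative_C_mul, hdU, Finset.mul_sum]
  have hPdQ : polP x * derivative (polQ x r) =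
      ∑ i, ∑ j ∈ Finset.univ.erase i, C (r i ^ 2) * (U i * U j) := by
    rw [hdQ, Finset.mul_sum]
    refine Finset.sum_congr rfl fun i _ => ?_
    rw [Finset.mul_sum]
    refine Finset.sum_congr rfl fun j hj => ?_
    rw [← polP_mul x i j (Finset.ne_of_mem_erase hj).symm]
    ring
  have hPQ : derivative (polP x) * polQ x r =
      ∑ i, (C (r i ^ 2) * (U i * U i) + ∑ j ∈ Finset.univ.erase i, C (r i ^ 2) * (U i * U j)) := by
    rw [hP, hQ, mul_comm, Finset.sum_mul]
    refine Finset.sum_congr rfl fun i _ => ?_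
    rw [Finset.mul_sum, ← Finset.add_sum_erase Finset.univ _ (Finset.mem_univ i)]
    congr 1
    · ring
    · refine Finset.sum_congr rfl fun j _ => by ring
  have hRR : polR x r ^ 2 =
      ∑ i, (C (r i ^ 2) * (U i * U i) +
        ∑ j ∈ Finset.univ.erase i, C (r i) * C (r j) * (U i * U j)) := by
    rw [hR, sq, Finset.sum_mul]
    refine Finset.sum_congr rfl fun i _ => ?_
    rw [Finset.mul_sum, ← Finset.add_sum_erase Finset.univ _ (Finset.mem_univ i)]
    congr 1
    · rw [C_pow]; ring
    · refine Finset.sum_congr rfl fun j _ => by ring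
  -- the cross terms vanish
  have hcross : ∑ i, ∑ j ∈ Finset.univ.erase i, C (r i) * C (r j) * (U i * U j) = 0 := by
    have h1 : ∀ i, ∀ j ∈ Finset.univ.erase i, C (r i) * C (r j) * (U i * U j) =
        polP x * (C (r i * ((x i - x j)⁻¹ * r j)) * U i) +
          polP x * (C (r j * ((x j - x i)⁻¹ * r i)) * U j) := by
      intro i j hj
      have hij : i ≠ j := (Finset.ne_of_mem_erase hj).symm
      have hne : x i - x j ≠ 0 := sub_ne_zero.mpr fun h => hij (hx h)
      have h2 : (C (x i) - C (x j)) * W i j = U i - U j := prod_erase_sub x i j hij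
      have h3 : polP x * W i j = U i * U j := polP_mul x i j hij
      have h4 : (x j - x i)⁻¹ = - (x i - x j)⁻¹ := by rw [← inv_neg, neg_sub]
      have h5 : (C ((x i - x j)⁻¹) : F[X]) * (C (x i) - C (x j)) = 1 := by
        rw [← C_sub, ← C_mul, inv_mul_cancel₀ hne, C_1]
      rw [h4]
      simp only [C_mul, C_neg]
      exact cross_aux _ _ _ _ _ _ _ _ _ h2 h3 h5
    rw [Finset.sum_congr rfl fun i _ => Finset.sum_congr rfl (h1 i)]
    simp_rw [Finset.sum_add_distrib]
    have h6 : ∑ i, ∑ j ∈ Finset.univ.erase i,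
        polP x * (C (r i * ((x i - x j)⁻¹ * r j)) * U i) = 0 := by
      refine Finset.sum_eq_zero fun i _ => ?_
      have h7 : ∑ j ∈ Finset.univ.erase i, polP x * (C (r i * ((x i - x j)⁻¹ * r j)) * U i) =
          polP x * (C (r i * ∑ j, (x i - x j)⁻¹ * r j) * U i) := by
        rw [← Finset.add_sum_erase Finset.univ _ (Finset.mem_univ i)]
        simp only [sub_self, inv_zero, zero_mul, zero_add]
        rw [Finset.mul_sum, map_sum, Finset.sum_mul, Finset.mul_sum]
      rw [h7, hr i]
      simp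
    have h8 : ∑ i, ∑ j ∈ Finset.univ.erase i,
        polP x * (C (r j * ((x j - x i)⁻¹ * r i)) * U j) = 0 := by
      rw [← h6]
      rw [Finset.sum_comm']
      intro i j
      simp [ne_comm]
    rw [h6, h8, add_zero]
  rw [hPQ, hPdQ, hRR, ← Finset.sum_sub_distrib]
  have h9 : ∀ i, C (r i ^ 2) * (U i * U i) + ∑ j ∈ Finset.univ.erase i, C (r i ^ 2) * (U i * U j) -
      ∑ j ∈ Finset.univ.erase i, C (r i ^ 2) * (U i * U j) = C (r i ^ 2) * (U i * U i) := by
    intro i; ring
  simp_rw [h9]
  rw [Finset.sum_add_distrib, hcross, add_zero]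

theorem polP_monic : (polP x).Monic := monic_prod_of_monic _ _ fun i _ => monic_X_sub_C _

theorem natDegree_polP : (polP x).natDegree = Fintype.card ι := by
  rw [polP, natDegree_prod_of_monic _ _ fun i _ => monic_X_sub_C _]
  simp

theorem natDegree_polQ_lt [Nonempty ι] : (polQ x r).natDegree < Fintype.card ι := by
  have hpos : 0 < Fintype.card ι := Fintype.card_pos
  refine lt_of_le_of_lt (natDegree_sum_le_of_forall_le (n := Fintype.card ι - 1) _ _ ?_) (by omega)
  intro i _
  refine (natDegree_C_mul_le _ _).trans ?_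
  rw [natDegree_prod_of_monic _ _ fun i _ => monic_X_sub_C _]
  simp [Finset.card_erase_of_mem]

theorem natDegree_polR_lt [Nonempty ι] : (polR x r).natDegree < Fintype.card ι := by
  have hpos : 0 < Fintype.card ι := Fintype.card_pos
  refine lt_of_le_of_lt (natDegree_sum_le_of_forall_le (n := Fintype.card ι - 1) _ _ ?_) (by omega)
  intro i _
  refine (natDegree_C_mul_le _ _).trans ?_
  rw [natDegree_prod_of_monic _ _ fun i _ => monic_X_sub_C _]
  simp [Finset.card_erase_of_mem]

theorem eval_polP (i : ι) : (polP x).eval (x i) = 0 := by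
  rw [polP, eval_prod]
  exact Finset.prod_eq_zero (Finset.mem_univ i) (by simp)

theorem eval_polQ (i : ι) : (polQ x r).eval (x i) = r i ^ 2 * ∏ j ∈ Finset.univ.erase i,
    (x i - x j) := by
  rw [polQ, eval_finsetSum, Finset.sum_eq_single i]
  · simp [eval_prod]
  · intro j _ hj
    rw [eval_mul, eval_prod, Finset.prod_eq_zero (i := i)]
    · simp
    · exact Finset.mem_erase.mpr ⟨hj.symm, Finset.mem_univ i⟩
    · simp
  · simp

theorem eval_polQ_ne_zero (hx : Function.Injective x) (hr : ∀ i, r i ≠ 0) (i : ι) :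
    (polQ x r).eval (x i) ≠ 0 := by
  rw [eval_polQ]
  refine mul_ne_zero (pow_ne_zero _ (hr i)) (Finset.prod_ne_zero_iff.mpr fun j hj => ?_)
  exact sub_ne_zero.mpr fun h => (Finset.ne_of_mem_erase hj) (hx h).symm

theorem eval_derivative_polP (i : ι) : (derivative (polP x)).eval (x i) =
    ∏ j ∈ Finset.univ.erase i, (x i - x j) := by
  rw [polP, derivative_prod_finset, eval_finsetSum, Finset.sum_eq_single i]
  · simp [eval_prod]
  · intro j _ hj
    rw [eval_mul, eval_prod, Finset.prod_eq_zero (i := i)]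
    · simp
    · exact Finset.mem_erase.mpr ⟨hj.symm, Finset.mem_univ i⟩
    · simp
  · simp

end Kernel

end Pool.Agent.LibHPAlt
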