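import Pool.Agent.LibHPAlt.A1

set_option autoImplicit false
open Polynomial

namespace Pool.Agent.LibHPAlt

/-! ### The roots of `P - t Q` as power series, and the discriminant -/

section General

theorem prod_resultant {A : Type} [CommRing A] [Nontrivial A] {ι : Type} [Fintype ι] (v : ι → A)
    (g : A[X]) (n : ℕ) (hg : g.natDegree ≤ n) :
    (∏ i, (X - C (v i))).resultant g (Fintype.card ι) n = ∏ i, g.eval (v i) := by
  have h1 : (∏ i, (X - C (v i))).natDegree = Fintype.card ι := by
    rw [natDegree_prod_of_monic _ _ fun i _ => monic_X_sub_C _]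
    simp
  rw [← h1, resultant_prod_left _ _ _ _ (by simp) hg]
  refine Finset.prod_congr rfl fun i _ => ?_
  rw [natDegree_X_sub_C, resultant_X_sub_C_left _ _ _ hg]

/-- `∏_{i ≠ j} (v i - v j)` is up to a universal sign the square of the Vandermonde
determinant. -/
theorem prod_erase_eq {A : Type} [CommRing A] {N : ℕ} (v : Fin N → A) :
    ∏ i, ∏ j ∈ Finset.univ.erase i, (v i - v j) =
      (∏ i : Fin N, (-1) ^ (Finset.Ioi i).card) * (Matrix.vandermonde v).det ^ 2 := by
  have h1 : ∀ i : Fin N, ∏ j ∈ Finset.univ.erase i, (v i - v j) =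
      (∏ j ∈ Finset.Iio i, (v i - v j)) * ∏ j ∈ Finset.Ioi i, (v i - v j) := by
    intro i
    rw [← Finset.prod_union]
    · refine Finset.prod_congr ?_ fun _ _ => rfl
      ext j
      simp only [Finset.mem_erase, Finset.mem_univ, and_true, Finset.mem_union, Finset.mem_Iio,
        Finset.mem_Ioi]
      omega
    · rw [Finset.disjoint_left]
      intro j hj hj'
      simp only [Finset.mem_Iio, Finset.mem_Ioi] at hj hj'
      omega
  simp_rw [h1]
  rw [Finset.prod_mul_distrib, Matrix.det_vandermonde]
  have h2 : ∏ i : Fin N, ∏ j ∈ Finset.Iio i, (v i - v j) =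
      ∏ i : Fin N, ∏ j ∈ Finset.Ioi i, (v j - v i) := by
    rw [Finset.prod_comm']
    intro i j
    simp
  have h3 : ∏ i : Fin N, ∏ j ∈ Finset.Ioi i, (v i - v j) =
      (∏ i : Fin N, (-1) ^ (Finset.Ioi i).card) * ∏ i : Fin N, ∏ j ∈ Finset.Ioi i, (v j - v i) := by
    rw [← Finset.prod_mul_distrib]
    refine Finset.prod_congr rfl fun i _ => ?_
    rw [← Finset.prod_const, ← Finset.prod_mul_distrib]
    refine Finset.prod_congr rfl fun j _ => by ring
  rw [h2, h3]
  ring

end General

section Roots

variable {F : Type} [Field F]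

/-- `P - t Q` as a polynomial with coefficients in the power series ring. -/
noncomputable def pencil (P Q : F[X]) : (PowerSeries F)[X] :=
  P.map (PowerSeries.C) - C PowerSeries.X * Q.map (PowerSeries.C)

/-- `P - t Q` as a polynomial with coefficients in `F[t]`. -/
noncomputable def pencilPoly (P Q : F[X]) : F[X][X] :=
  P.map (C) - C X * Q.map (C)

theorem pencilPoly_map (P Q : F[X]) :
    (pencilPoly P Q).map (coeToPowerSeries.ringHom : F[X] →+* PowerSeries F) = pencil P Q := by
  have h : (coeToPowerSeries.ringHom : F[X] →+* PowerSeries F).comp C = PowerSeries.C := by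
    ext1 a
    simp [coeToPowerSeries.ringHom_apply]
  rw [pencilPoly, pencil, Polynomial.map_sub, Polynomial.map_mul, Polynomial.map_map, h,
    Polynomial.map_map, h, Polynomial.map_C, coeToPowerSeries.ringHom_apply, Polynomial.coe_X]

variable {ι : Type} [Fintype ι] [DecidableEq ι] (x : ι → F)

theorem pencilPoly_monic (Q : F[X]) (hQ : Q.natDegree < Fintype.card ι) :
    (pencilPoly (polP x) Q).Monic := by
  refine Monic.sub_of_left ((polP_monic x).map _) ?_
  rw [degree_C_mul X_ne_zero, degree_map_eq_of_injective C_injective,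
    degree_map_eq_of_injective C_injective,
    degree_eq_natDegree (polP_monic x).ne_zero, natDegree_polP]
  exact lt_of_le_of_lt degree_le_natDegree (by exact_mod_cast hQ)

theorem pencil_monic (Q : F[X]) (hQ : Q.natDegree < Fintype.card ι) :
    (pencil (polP x) Q).Monic := by
  rw [← pencilPoly_map]
  exact (pencilPoly_monic x Q hQ).map _

theorem natDegree_pencilPoly (Q : F[X]) (hQ : Q.natDegree < Fintype.card ι) :
    (pencilPoly (polP x) Q).natDegree = Fintype.card ι := by
  rw [pencilPoly, sub_eq_add_neg, natDegree_add_eq_left_of_natDegree_lt]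
  · rw [natDegree_map_eq_of_injective C_injective, natDegree_polP]
  · rw [natDegree_neg]
    refine lt_of_le_of_lt (natDegree_C_mul_le _ _) ?_
    rw [natDegree_map_eq_of_injective C_injective, natDegree_map_eq_of_injective C_injective,
      natDegree_polP]
    exact hQ

theorem natDegree_pencil (Q : F[X]) (hQ : Q.natDegree < Fintype.card ι) :
    (pencil (polP x) Q).natDegree = Fintype.card ι := by
  rw [← pencilPoly_map, (pencilPoly_monic x Q hQ).natDegree_map, natDegree_pencilPoly x Q hQ]

/-- The roots of `P - t Q` as power series. -/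
theorem exists_roots (hx : Function.Injective x) (Q : F[X])
    (hQ : Q.natDegree < Fintype.card ι) :
    ∃ y : ι → PowerSeries F, (∀ i, PowerSeries.constantCoeff (y i) = x i) ∧
      ∏ i, (X - C (y i)) = pencil (polP x) Q := by
  set f := pencil (polP x) Q with hf
  set I : Ideal (PowerSeries F) := Ideal.span {PowerSeries.X} with hI
  have hmem : ∀ z : PowerSeries F, z ∈ I ↔ PowerSeries.constantCoeff z = 0 := by
    intro z
    rw [hI, Ideal.mem_span_singleton, PowerSeries.X_dvd_iff]
  have hroot : ∀ i, ∃ z : PowerSeries F, f.IsRoot z ∧ z - PowerSeries.C (x i) ∈ I := by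
    intro i
    refine HenselianRing.is_henselian (I := I) f (pencil_monic x Q hQ) _ ?_ ?_
    · rw [hmem, hf, pencil]
      simp only [eval_sub, eval_mul, eval_C, map_sub, map_mul, PowerSeries.constantCoeff_X,
        zero_mul, sub_zero]
      rw [eval_map, eval₂_hom, eval_polP]
      simp
    · refine IsUnit.map _ ?_
      rw [PowerSeries.isUnit_iff_constantCoeff, hf, pencil]
      simp only [derivative_sub, derivative_mul, derivative_C, zero_mul, zero_add, eval_sub,
        eval_mul, eval_C, map_sub, map_mul, PowerSeries.constantCoeff_X, sub_zero,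
        derivative_map]
      rw [eval_map, eval₂_hom]
      simp only [PowerSeries.constantCoeff_C]
      rw [eval_derivative_polP]
      exact (Finset.prod_ne_zero_iff.mpr fun j hj =>
        sub_ne_zero.mpr fun h => (Finset.ne_of_mem_erase hj) (hx h).symm).isUnit
  choose y hy1 hy2 using hroot
  have hy3 : ∀ i, PowerSeries.constantCoeff (y i) = x i := by
    intro i
    have := (hmem _).mp (hy2 i)
    rw [map_sub, PowerSeries.constantCoeff_C, sub_eq_zero] at this
    exact this
  refine ⟨y, hy3, ?_⟩
  symm
  refine eq_of_monic_of_dvd_of_natDegree_le (monic_prod_of_monic _ _ fun i _ => monic_X_sub_C _)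
    (pencil_monic x Q hQ) ?_ ?_
  · refine Finset.prod_dvd_of_coprime (fun i _ j _ hij => ?_) fun i _ => ?_
    · refine isCoprime_X_sub_C_of_isUnit_sub ?_
      rw [PowerSeries.isUnit_iff_constantCoeff, map_sub, hy3, hy3]
      exact (sub_ne_zero.mpr fun h => hij (hx h)).isUnit
    · exact dvd_iff_isRoot.mpr (hy1 i)
  · rw [natDegree_prod_of_monic _ _ fun i _ => monic_X_sub_C _]
    simp [hf, natDegree_pencil x Q hQ]

/-- Uniqueness of the roots. -/
theorem root_unique (hx : Function.Injective x) (Q : F[X]) (y : ι → PowerSeries F)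
    (hy : ∀ i, PowerSeries.constantCoeff (y i) = x i)
    (hprod : ∏ i, (X - C (y i)) = pencil (polP x) Q) (z : PowerSeries F)
    (hz : (pencil (polP x) Q).IsRoot z) (i : ι) (hzi : PowerSeries.constantCoeff z = x i) :
    z = y i := by
  rw [← hprod, IsRoot, eval_prod, Finset.prod_eq_zero_iff] at hz
  obtain ⟨j, -, hj⟩ := hz
  rw [eval_sub, eval_X, eval_C, sub_eq_zero] at hj
  have : x i = x j := by rw [← hzi, hj, hy]
  rw [hj, hx this]

end Roots

section Disc

variable {F : Type} [Field F] {N : ℕ} (x r : Fin N → F)

/-- The discriminant of the pencil `P - t Q` is a square: the Vandermonde determinant of the roots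
`y i` is, up to a nonzero constant, a polynomial in `t`. -/
theorem vandermonde_mem [NeZero N] (hx : Function.Injective x)
    (hr : ∀ i, ∑ j, (x i - x j)⁻¹ * r j = 0) (y : Fin N → PowerSeries F)
    (hprod : ∏ i, (X - C (y i)) = pencil (polP x) (polQ x r)) :
    ∃ p : F[X], (Matrix.vandermonde y).det *
      PowerSeries.C ((Matrix.vandermonde x).det * ∏ i, r i) = (p : PowerSeries F) := by
  have : Nonempty (Fin N) := ⟨0⟩
  have hcard : Fintype.card (Fin N) = N := Fintype.card_fin N
  set P := polP x with hP
  set Q := polQ x r with hQ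
  set R := polR x r with hR
  have hQd : Q.natDegree < N := by simpa using natDegree_polQ_lt x r
  have hRd : R.natDegree ≤ N := by simpa using (natDegree_polR_lt x r).le
  -- the product of the values of `R`
  have hRprod : ∏ i, (R.map PowerSeries.C).eval (y i) =
      (((pencilPoly P Q).resultant (R.map C) N N : F[X]) : PowerSeries F) := by
    rw [← prod_resultant y (R.map PowerSeries.C) N (natDegree_map_le.trans hRd), hprod,
      ← pencilPoly_map, hcard]
    have h : (R.map PowerSeries.C : (PowerSeries F)[X]) =
        (R.map C).map (coeToPowerSeries.ringHom : F[X] →+* PowerSeries F) := by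
      rw [Polynomial.map_map]
      congr 1
      ext1 a
      simp [coeToPowerSeries.ringHom_apply]
    rw [h, resultant_map_map, coeToPowerSeries.ringHom_apply]
  -- the product of the values of `Q`
  have hQprod : ∏ i, (Q.map PowerSeries.C).eval (y i) = PowerSeries.C (∏ i, Q.eval (x i)) := by
    rw [← prod_resultant y (Q.map PowerSeries.C) Q.natDegree natDegree_map_le, hprod, pencil, hcard,
      sub_eq_add_neg]
    have h1 : -(C PowerSeries.X * Q.map (PowerSeries.C : F →+* PowerSeries F)) =
        Q.map PowerSeries.C * (-C PowerSeries.X) := by ring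
    rw [h1, resultant_add_mul_left _ _ _ _ _ (by
      rw [natDegree_neg, natDegree_C]; omega) natDegree_map_le, resultant_map_map]
    congr 1
    rw [hP, polP, ← prod_resultant x Q Q.natDegree le_rfl, hcard]
  -- the identity at the roots
  have hid : ∀ i, (derivative (pencil P Q)).eval (y i) * (Q.map PowerSeries.C).eval (y i) =
      (R.map PowerSeries.C).eval (y i) ^ 2 := by
    intro i
    have h1 : (pencil P Q).eval (y i) = 0 := by
      rw [← hprod, eval_prod]
      exact Finset.prod_eq_zero (Finset.mem_univ i) (by simp)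
    have h2 : derivative (pencil P Q) * Q.map PowerSeries.C -
        pencil P Q * derivative (Q.map PowerSeries.C) = (R.map PowerSeries.C) ^ 2 := by
      rw [← Polynomial.map_pow, hR, ← mestre_identity x r hx hr]
      simp only [pencil, derivative_sub, derivative_mul, derivative_C, zero_mul, zero_add,
        derivative_map, Polynomial.map_sub, Polynomial.map_mul, hP, hQ]
      ring
    have h3 := congrArg (eval (y i)) h2
    rw [eval_sub, eval_mul, eval_mul, h1, zero_mul, sub_zero, eval_pow] at h3
    exact h3
  have hder : ∀ i, (derivative (pencil P Q)).eval (y i) =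
      ∏ j ∈ Finset.univ.erase i, (y i - y j) := by
    intro i
    rw [← hprod, derivative_prod_finset, eval_finsetSum, Finset.sum_eq_single i]
    · simp [eval_prod]
    · intro j _ hj
      rw [eval_mul, eval_prod, Finset.prod_eq_zero (i := i)]
      · simp
      · exact Finset.mem_erase.mpr ⟨hj.symm, Finset.mem_univ i⟩
      · simp
    · simp
  have hQx : ∏ i, Q.eval (x i) = (∏ i, r i) ^ 2 * ∏ i, ∏ j ∈ Finset.univ.erase i, (x i - x j) := by
    simp_rw [hQ, eval_polQ]
    rw [Finset.prod_mul_distrib, Finset.prod_pow]
  have hmain : ((Matrix.vandermonde y).det *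
      PowerSeries.C ((Matrix.vandermonde x).det * ∏ i, r i)) ^ 2 =
      ((((pencilPoly P Q).resultant (R.map C) N N : F[X]) : PowerSeries F)) ^ 2 := by
    rw [← hRprod, ← Finset.prod_pow, ← Finset.prod_congr rfl fun i _ => hid i,
      Finset.prod_mul_distrib, hQprod, hQx, Finset.prod_congr rfl fun i _ => hder i,
      prod_erase_eq, prod_erase_eq]
    simp only [map_mul, map_pow, map_prod, map_neg, map_one]
    have hs : ((∏ i : Fin N, (-1 : PowerSeries F) ^ (Finset.Ioi i).card)) ^ 2 = 1 := by
      rw [← Finset.prod_pow]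
      refine Finset.prod_eq_one fun i _ => ?_
      rw [← pow_mul, mul_comm, pow_mul]
      simp
    linear_combination (-((Matrix.vandermonde y).det ^ 2 *
      PowerSeries.C (Matrix.vandermonde x).det ^ 2 * (∏ i, PowerSeries.C (r i)) ^ 2)) * hs
  rcases sq_eq_sq_iff_eq_or_eq_neg.mp hmain with h | h
  · exact ⟨_, h⟩
  · exact ⟨-_, h.trans (by rw [Polynomial.coe_neg])⟩

end Disc

end Pool.Agent.LibHPAlt
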