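import Pool.Agent.LibHPAlt.A2

set_option autoImplicit false
open Polynomial

namespace Pool.Agent.LibHPAlt

/-! ### The field of rational functions, the action of the symmetric group, and the embedding
into power series -/

variable (k : Type) [Field k] (N : ℕ)

/-- `k(x_1, ..., x_N)`. -/
abbrev FF : Type := FractionRing (MvPolynomial (Fin N) k)

/-- The variables. -/
noncomputable def xx (i : Fin N) : FF k N := algebraMap (MvPolynomial (Fin N) k) _ (MvPolynomial.X i)

theorem xx_injective : Function.Injective (xx k N) := by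
  intro i j h
  exact MvPolynomial.X_injective (IsFractionRing.injective (MvPolynomial (Fin N) k) (FF k N) h)

/-- Permutation of the variables on polynomials. -/
noncomputable def renHom : Equiv.Perm (Fin N) →*
    (MvPolynomial (Fin N) k ≃ₐ[k] MvPolynomial (Fin N) k) where
  toFun σ := MvPolynomial.renameEquiv k σ
  map_one' := by
    ext p
    simp [MvPolynomial.renameEquiv]
  map_mul' σ τ := by
    ext p
    simp [MvPolynomial.renameEquiv, MvPolynomial.rename_rename]

/-- Permutation of the variables on rational functions. -/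
noncomputable def act : Equiv.Perm (Fin N) →* (FF k N ≃ₐ[k] FF k N) :=
  (IsFractionRing.fieldEquivOfAlgEquivHom k (FF k N)).comp (renHom k N)

theorem act_algebraMap (σ : Equiv.Perm (Fin N)) (p : MvPolynomial (Fin N) k) :
    act k N σ (algebraMap _ _ p) = algebraMap _ _ (MvPolynomial.rename σ p) := by
  simp [act, renHom]

theorem act_xx (σ : Equiv.Perm (Fin N)) (i : Fin N) : act k N σ (xx k N i) = xx k N (σ i) := by
  rw [xx, act_algebraMap, MvPolynomial.rename_X]
  rfl

/-- The action as ring automorphisms. -/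
noncomputable def actR : Equiv.Perm (Fin N) →* (FF k N ≃+* FF k N) where
  toFun σ := (act k N σ).toRingEquiv
  map_one' := by
    ext x
    simp
  map_mul' σ τ := by
    ext x
    simp

theorem actR_apply (σ : Equiv.Perm (Fin N)) (θ : FF k N) : actR k N σ θ = act k N σ θ := rfl

variable {k N}

theorem ringHom_ext' {A : Type} [CommRing A] {f g : FF k N →+* A}
    (hC : ∀ c : k, f (algebraMap k _ c) = g (algebraMap k _ c))
    (hX : ∀ i, f (xx k N i) = g (xx k N i)) : f = g := by
  refine IsLocalization.ringHom_ext (nonZeroDivisors (MvPolynomial (Fin N) k)) ?_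
  refine MvPolynomial.ringHom_ext ?_ ?_
  · intro c
    exact hC c
  · intro i
    exact hX i

/-- The embedding `x_i ↦ y_i` into power series. -/
theorem exists_psi (y : Fin N → PowerSeries (FF k N))
    (hy : ∀ i, PowerSeries.constantCoeff (y i) = xx k N i) :
    ∃ Ψ : FF k N →+* PowerSeries (FF k N), (∀ i, Ψ (xx k N i) = y i) ∧
      (∀ c : k, Ψ (algebraMap k _ c) = PowerSeries.C (algebraMap k _ c)) ∧
      (∀ θ, PowerSeries.constantCoeff (Ψ θ) = θ) := by
  let g : MvPolynomial (Fin N) k →+* PowerSeries (FF k N) :=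
    MvPolynomial.eval₂Hom (PowerSeries.C.comp (algebraMap k (FF k N))) y
  have hg : ∀ p, PowerSeries.constantCoeff (g p) = algebraMap _ (FF k N) p := by
    intro p
    have : (PowerSeries.constantCoeff.comp g : MvPolynomial (Fin N) k →+* FF k N) =
        algebraMap _ (FF k N) := by
      refine MvPolynomial.ringHom_ext ?_ ?_
      · intro c
        simp only [g, RingHom.comp_apply, MvPolynomial.coe_eval₂Hom, MvPolynomial.eval₂_C,
          PowerSeries.constantCoeff_C]
        rw [IsScalarTower.algebraMap_apply k (MvPolynomial (Fin N) k) (FF k N)]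
        rfl
      · intro i
        simp only [g, RingHom.comp_apply, MvPolynomial.coe_eval₂Hom, MvPolynomial.eval₂_X, hy]
        rfl
    exact DFunLike.congr_fun this p
  have hunit : ∀ p : nonZeroDivisors (MvPolynomial (Fin N) k), IsUnit (g p) := by
    intro p
    rw [PowerSeries.isUnit_iff_constantCoeff, hg]
    exact (IsFractionRing.to_map_ne_zero_of_mem_nonZeroDivisors p.2).isUnit
  let Ψ : FF k N →+* PowerSeries (FF k N) := IsLocalization.lift hunit
  have h1 : ∀ p, Ψ (algebraMap _ _ p) = g p := fun p => IsLocalization.lift_eq hunit p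
  have h2 : ∀ c : k, Ψ (algebraMap k _ c) = PowerSeries.C (algebraMap k _ c) := by
    intro c
    rw [IsScalarTower.algebraMap_apply k (MvPolynomial (Fin N) k) (FF k N), h1]
    simp only [g, MvPolynomial.coe_eval₂Hom]
    rw [MvPolynomial.algebraMap_eq, MvPolynomial.eval₂_C]
    rw [RingHom.comp_apply, IsScalarTower.algebraMap_apply k (MvPolynomial (Fin N) k) (FF k N)]
    rfl
  have h3 : ∀ i, Ψ (xx k N i) = y i := by
    intro i
    rw [xx, h1]
    simp [g]
  refine ⟨Ψ, h3, h2, ?_⟩
  intro θ
  have : (PowerSeries.constantCoeff.comp Ψ : FF k N →+* FF k N) = RingHom.id _ := by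
    refine ringHom_ext' ?_ ?_
    · intro c
      rw [RingHom.comp_apply, h2]
      simp
    · intro i
      rw [RingHom.comp_apply, h3, hy]
      rfl
  exact DFunLike.congr_fun this θ

/-- A section of `F[[t]] → F` has algebraically closed image in `F((t))`. -/
theorem psi_closed {F : Type} [Field F] (Ψ : F →+* PowerSeries F)
    (hΨ : ∀ θ, PowerSeries.constantCoeff (Ψ θ) = θ) {L : Type} [Field L]
    [Algebra (PowerSeries F) L] [IsFractionRing (PowerSeries F) L] (η : L) (P : F[X])
    (hP : P ≠ 0) (h : P.eval₂ ((algebraMap (PowerSeries F) L).comp Ψ) η = 0) :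
    ∃ θ, algebraMap (PowerSeries F) L (Ψ θ) = η := by
  -- `η` is integral over `F[[t]]`
  obtain ⟨η0, rfl⟩ : ∃ η0, algebraMap (PowerSeries F) L η0 = η := by
    refine IsIntegrallyClosed.algebraMap_eq_of_integral (R := PowerSeries F) (K := L) (x := η) ?_
    refine ⟨(P * C P.leadingCoeff⁻¹).map Ψ, ?_, ?_⟩
    · exact (monic_mul_leadingCoeff_inv hP).map _
    · rw [← eval₂_map] at h
      rw [Polynomial.map_mul, eval₂_mul, h, zero_mul]
  refine ⟨PowerSeries.constantCoeff η0, ?_⟩
  congr 1
  set θ := PowerSeries.constantCoeff η0 with hθ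
  -- translate
  set ζ := η0 - Ψ θ with hζ
  have hζ0 : PowerSeries.constantCoeff ζ = 0 := by rw [hζ, map_sub, hΨ, hθ, sub_self]
  have hroot : P.eval₂ Ψ η0 = 0 := by
    have h1 : algebraMap (PowerSeries F) L (P.eval₂ Ψ η0) = 0 := by
      rw [Polynomial.hom_eval₂]
      exact h
    exact (map_eq_zero_iff _ (IsFractionRing.injective (PowerSeries F) L)).mp h1
  set G := P.comp (X + C θ) with hG
  have hG0 : G ≠ 0 := by
    rw [hG]
    intro h0
    have h1 : G.comp (X - C θ) = P := by
      rw [hG, comp_assoc]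
      simp
    rw [hG, h0, zero_comp] at h1
    exact hP h1.symm
  have hGroot : G.eval₂ Ψ ζ = 0 := by
    rw [hG, eval₂_comp]
    simp only [eval₂_add, eval₂_X, eval₂_C]
    rw [hζ, sub_add_cancel, hroot]
  by_contra hne
  have hζne : ζ ≠ 0 := by
    intro h0
    apply hne
    rw [hζ, sub_eq_zero] at h0
    exact h0.symm
  obtain ⟨m, H, hH, hGH⟩ : ∃ (m : ℕ) (H : F[X]), H.coeff 0 ≠ 0 ∧ G = X ^ m * H := by
    obtain ⟨H, hH⟩ := Polynomial.exists_eq_pow_rootMultiplicity_mul_and_not_dvd G hG0 0
    refine ⟨_, H, ?_, by simpa using hH.1⟩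
    intro h0
    apply hH.2
    rw [C_0, sub_zero]
    exact X_dvd_iff.mpr h0
  rw [hGH, eval₂_mul, eval₂_pow, eval₂_X] at hGroot
  have h2 : H.eval₂ Ψ ζ = 0 := (mul_eq_zero.mp hGroot).resolve_left (pow_ne_zero _ hζne)
  have h3 := congrArg PowerSeries.constantCoeff h2
  rw [map_zero, Polynomial.hom_eval₂, hζ0] at h3
  rw [show (PowerSeries.constantCoeff.comp Ψ : F →+* F) = RingHom.id F from
    RingHom.ext hΨ] at h3
  rw [eval₂_id, ← coeff_zero_eq_eval_zero] at h3
  exact hH h3

end Pool.Agent.LibHPAlt
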