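import Pool.Agent.LibHPAlt.A3

set_option autoImplicit false
open Polynomial

namespace Pool.Agent.LibHPAlt

/-! ### Rational functions in the Laurent series field; symmetric functions of the roots -/

section JJ

variable {F : Type} [Field F]

/-- The field `F((t))`. -/
abbrev LL (F : Type) [Field F] : Type := FractionRing (PowerSeries F)

theorem jj_inj : Function.Injective
    ((algebraMap (PowerSeries F) (LL F)).comp
      (coeToPowerSeries.ringHom : F[X] →+* PowerSeries F)) := by
  rw [RingHom.coe_comp]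
  refine (IsFractionRing.injective (PowerSeries F) (LL F)).comp ?_
  intro p q h
  simpa [coeToPowerSeries.ringHom_apply] using h

/-- The embedding `F(t) → F((t))`. -/
noncomputable def jj : RatFunc F →+* LL F :=
  IsFractionRing.lift (A := F[X]) (K := RatFunc F) jj_inj

theorem jj_algebraMap (p : F[X]) :
    jj (algebraMap F[X] (RatFunc F) p) = algebraMap (PowerSeries F) (LL F) (p : PowerSeries F) := by
  rw [jj, IsFractionRing.lift_algebraMap]
  rfl

theorem jj_C (c : F) : jj (RatFunc.C c) = algebraMap (PowerSeries F) (LL F) (PowerSeries.C c) := by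
  rw [← RatFunc.algebraMap_C, jj_algebraMap, Polynomial.coe_C]

/-- Rational power series: those in the image of `F(t)`. -/
def Rat (z : PowerSeries F) : Prop := ∃ e : RatFunc F, jj e = algebraMap (PowerSeries F) (LL F) z

theorem rat_iff (z : PowerSeries F) :
    Rat z ↔ ∃ p q : F[X], q ≠ 0 ∧ z * (q : PowerSeries F) = (p : PowerSeries F) := by
  constructor
  · rintro ⟨e, he⟩
    obtain ⟨p, q, hq, rfl⟩ := IsFractionRing.div_surjective F[X] e
    have hq0 : q ≠ 0 := nonZeroDivisors.ne_zero hq
    have hq1 : (algebraMap (PowerSeries F) (LL F)) (q : PowerSeries F) ≠ 0 := by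
      rw [← jj_algebraMap]
      exact (map_ne_zero_iff _ (jj (F := F)).injective).mpr
        ((map_ne_zero_iff _ (IsFractionRing.injective F[X] (RatFunc F))).mpr hq0)
    refine ⟨p, q, hq0, ?_⟩
    apply IsFractionRing.injective (PowerSeries F) (LL F)
    rw [map_mul, ← he, map_div₀, jj_algebraMap, jj_algebraMap, div_mul_cancel₀ _ hq1]
  · rintro ⟨p, q, hq, h⟩
    have hq1 : (algebraMap (PowerSeries F) (LL F)) (q : PowerSeries F) ≠ 0 := by
      rw [← jj_algebraMap]
      exact (map_ne_zero_iff _ (jj (F := F)).injective).mpr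
        ((map_ne_zero_iff _ (IsFractionRing.injective F[X] (RatFunc F))).mpr hq)
    refine ⟨algebraMap _ _ p / algebraMap _ _ q, ?_⟩
    rw [map_div₀, jj_algebraMap, jj_algebraMap, ← h, map_mul, mul_div_cancel_right₀ _ hq1]

theorem rat_coe (p : F[X]) : Rat (p : PowerSeries F) := ⟨_, jj_algebraMap p⟩

end JJ

section Symm

variable {k : Type} [Field k] {N : ℕ} {F : Type} [Field F] [Algebra k F]

theorem aeval_symm_mem (y : Fin N → PowerSeries F) (f : F[X][X])
    (hprod : ∏ i, (X - C (y i)) = f.map (coeToPowerSeries.ringHom : F[X] →+* PowerSeries F))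
    (s : MvPolynomial (Fin N) k) (hs : s.IsSymmetric) :
    ∃ p : F[X], MvPolynomial.aeval y s = (p : PowerSeries F) := by
  let S : Subalgebra k (PowerSeries F) :=
    { carrier := Set.range (fun p : F[X] => (p : PowerSeries F))
      mul_mem' := by
        rintro _ _ ⟨p, rfl⟩ ⟨q, rfl⟩
        exact ⟨p * q, by simp⟩
      add_mem' := by
        rintro _ _ ⟨p, rfl⟩ ⟨q, rfl⟩
        exact ⟨p + q, by simp⟩
      algebraMap_mem' := by
        intro c
        exact ⟨C (algebraMap k F c), by simp [PowerSeries.algebraMap_apply]⟩ }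
  have hmemS : ∀ p : F[X], (p : PowerSeries F) ∈ S := fun p => ⟨p, rfl⟩
  have hS : ∀ z ∈ S, ∃ p : F[X], z = (p : PowerSeries F) := by
    rintro z ⟨p, rfl⟩
    exact ⟨p, rfl⟩
  obtain ⟨g, hg⟩ := MvPolynomial.esymmAlgHom_surjective (R := k) (σ := Fin N) (n := N)
    (by simp) ⟨s, hs⟩
  have hg' : s = MvPolynomial.aeval
      (fun i : Fin N => MvPolynomial.esymm (Fin N) k (i + 1)) g := by
    rw [← MvPolynomial.esymmAlgHom_apply, hg]
  have h1 : MvPolynomial.aeval y s = MvPolynomial.aeval
      (fun i : Fin N => (Finset.univ.val.map y).esymm (i + 1)) g := by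
    rw [hg']
    have : (MvPolynomial.aeval y : MvPolynomial (Fin N) k →ₐ[k] PowerSeries F).comp
        (MvPolynomial.aeval (fun i : Fin N => MvPolynomial.esymm (Fin N) k (i + 1))) =
        MvPolynomial.aeval (fun i : Fin N => (Finset.univ.val.map y).esymm (i + 1)) := by
      ext i
      simp [MvPolynomial.aeval_esymm_eq_multiset_esymm]
    exact DFunLike.congr_fun this g
  have h2 : ∀ i : Fin N, (Finset.univ.val.map y).esymm (i + 1) ∈ S := by
    intro i
    have hc : Multiset.card (Finset.univ.val.map y) = N := by simp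
    have h3 := Multiset.prod_X_sub_C_coeff (Finset.univ.val.map y) (k := N - (i + 1))
      (by rw [hc]; omega)
    rw [hc, show N - (N - ((i : ℕ) + 1)) = i + 1 by omega, Multiset.map_map] at h3
    have h4 : (Multiset.map ((fun t => X - C t) ∘ y) Finset.univ.val).prod = ∏ i, (X - C (y i)) :=
      rfl
    rw [h4, hprod, coeff_map] at h3
    have h5 : (Finset.univ.val.map y).esymm (i + 1) = (-1) ^ ((i : ℕ) + 1) *
        ((f.coeff (N - (i + 1)) : F[X]) : PowerSeries F) := by
      rw [← coeToPowerSeries.ringHom_apply, h3, ← mul_assoc, ← mul_pow]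
      simp
    rw [h5]
    exact S.mul_mem (S.pow_mem (S.neg_mem S.one_mem) _) (hmemS _)
  have h3 : MvPolynomial.aeval
      (fun i : Fin N => (Finset.univ.val.map y).esymm (i + 1)) g ∈ S := by
    have h6 := (MvPolynomial.aeval (fun i : Fin N =>
      (⟨(Finset.univ.val.map y).esymm (i + 1), h2 i⟩ : S)) g).2
    rwa [← Subalgebra.mvPolynomial_aeval_coe] at h6
  rw [h1]
  exact hS _ h3

/-- An element of `k(x)` fixed by a group `H` of permutations is a quotient of an `H`-invariant
polynomial by a symmetric one. -/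
theorem fixed_frac (H : Subgroup (Equiv.Perm (Fin N))) (θ : FF k N)
    (hθ : ∀ σ ∈ H, act k N σ θ = θ) :
    ∃ s d : MvPolynomial (Fin N) k, (∀ σ ∈ H, MvPolynomial.rename σ s = s) ∧ d.IsSymmetric ∧
      d ≠ 0 ∧ θ * algebraMap _ (FF k N) d = algebraMap _ (FF k N) s := by
  classical
  obtain ⟨p, q, hq, rfl⟩ := IsFractionRing.div_surjective (MvPolynomial (Fin N) k) θ
  have hq0 : q ≠ 0 := nonZeroDivisors.ne_zero hq
  set d : MvPolynomial (Fin N) k := ∏ σ : Equiv.Perm (Fin N), MvPolynomial.rename σ q with hd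
  have hdsymm : d.IsSymmetric := by
    intro τ
    rw [hd, map_prod]
    rw [← Equiv.prod_comp (Equiv.mulLeft τ) (fun σ : Equiv.Perm (Fin N) =>
      MvPolynomial.rename σ q)]
    refine Finset.prod_congr rfl fun σ _ => ?_
    rw [MvPolynomial.rename_rename]
    rfl
  have hd0 : d ≠ 0 := by
    rw [hd, Finset.prod_ne_zero_iff]
    intro σ _
    exact (map_ne_zero_iff _ (MvPolynomial.rename_injective _ σ.injective)).mpr hq0
  have hdq : d = q * ∏ σ ∈ Finset.univ.erase (1 : Equiv.Perm (Fin N)), MvPolynomial.rename σ q := by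
    rw [hd, ← Finset.mul_prod_erase Finset.univ _ (Finset.mem_univ (1 : Equiv.Perm (Fin N)))]
    simp
  set s := p * ∏ σ ∈ Finset.univ.erase (1 : Equiv.Perm (Fin N)), MvPolynomial.rename σ q with hs
  have hq1 : algebraMap _ (FF k N) q ≠ 0 :=
    (map_ne_zero_iff _ (IsFractionRing.injective _ (FF k N))).mpr hq0
  have heq : algebraMap _ (FF k N) p / algebraMap _ (FF k N) q * algebraMap _ (FF k N) d =
      algebraMap _ (FF k N) s := by
    rw [hdq, hs, map_mul, map_mul]
    field_simp
  refine ⟨s, d, ?_, hdsymm, hd0, heq⟩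
  intro σ hσ
  apply IsFractionRing.injective (MvPolynomial (Fin N) k) (FF k N)
  rw [← act_algebraMap, ← heq, map_mul, hθ σ hσ, act_algebraMap, hdsymm σ]

end Symm

end Pool.Agent.LibHPAlt
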