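import Pool.Agent.LibHPAlt.A4

set_option autoImplicit false
open Polynomial

namespace Pool.Agent.LibHPAlt

/-! ### The embedding for odd `N` -/

section Odd

variable {k : Type} [Field k] {N : ℕ}

theorem act_vandermonde (σ : Equiv.Perm (Fin N)) :
    act k N σ (Matrix.vandermonde (xx k N)).det =
      (Equiv.Perm.sign σ : ℤ) * (Matrix.vandermonde (xx k N)).det := by
  rw [← AlgEquiv.coe_ringEquiv, RingEquiv.map_det, ← Matrix.det_permute]
  congr 1
  ext i j
  simp [Matrix.vandermonde, act_xx]

theorem vandermonde_xx_ne_zero : (Matrix.vandermonde (xx k N)).det ≠ 0 :=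
  Matrix.det_vandermonde_ne_zero_iff.mpr (xx_injective k N)

/-- A root of `P - t Q` is not a rational function of `t`. -/
theorem not_rat_root {F : Type} [Field F] (x : Fin N → F) (hx : Function.Injective x)
    (hN : 2 ≤ N) (Q : F[X]) (hQd : Q.natDegree < N) (hQ : ∀ i, Q.eval (x i) ≠ 0)
    (z : PowerSeries F) (hz : (pencil (polP x) Q).eval z = 0) : ¬ Rat z := by
  rintro ⟨e, he⟩
  set P := polP x with hP
  have hmonic : (pencilPoly P Q).Monic := pencilPoly_monic x Q (by simpa using hQd)
  -- e is a root of the polynomial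
  have he0 : ((pencilPoly P Q).map (algebraMap F[X] (RatFunc F))).eval e = 0 := by
    apply (jj (F := F)).injective
    rw [map_zero, ← Polynomial.eval₂_hom, ← Polynomial.eval_map, Polynomial.map_map, he]
    have h1 : (jj.comp (algebraMap F[X] (RatFunc F)) : F[X] →+* LL F) =
        (algebraMap (PowerSeries F) (LL F)).comp coeToPowerSeries.ringHom :=
      RingHom.ext fun p => jj_algebraMap p
    rw [h1, ← Polynomial.map_map, pencilPoly_map, Polynomial.eval_map, Polynomial.eval₂_hom, hz,
      map_zero]
  obtain ⟨a, rfl⟩ : ∃ a : F[X], algebraMap F[X] (RatFunc F) a = e := by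
    refine IsIntegrallyClosed.algebraMap_eq_of_integral (R := F[X]) (K := RatFunc F) (x := e) ?_
    refine ⟨pencilPoly P Q, hmonic, ?_⟩
    rw [← eval_map]
    exact he0
  have ha : P.comp a = X * Q.comp a := by
    rw [Polynomial.eval_map, Polynomial.eval₂_hom,
      map_eq_zero_iff _ (IsFractionRing.injective F[X] (RatFunc F))] at he0
    rw [pencilPoly, eval_sub, eval_mul, eval_C, sub_eq_zero, eval_map, eval_map] at he0
    exact he0
  have hPd : P.natDegree = N := by rw [hP, natDegree_polP]; simp
  rcases Nat.eq_zero_or_pos a.natDegree with h0 | h1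
  · -- constant
    obtain ⟨c, hc⟩ := natDegree_eq_zero.mp h0
    rw [← hc, comp_C, comp_C] at ha
    have h2 := congrArg (eval 0) ha
    rw [eval_mul, eval_X, zero_mul, eval_C] at h2
    have h3 := congrArg (fun p => coeff p 1) ha
    simp only [coeff_C_succ, coeff_X_mul, coeff_C_zero] at h3
    rw [hP, polP, eval_prod, Finset.prod_eq_zero_iff] at h2
    obtain ⟨i, -, hi⟩ := h2
    rw [eval_sub, eval_X, eval_C, sub_eq_zero] at hi
    exact hQ i (by rw [← hi]; exact h3.symm)
  · have h2 := congrArg natDegree ha
    rw [natDegree_comp, hPd] at h2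
    have hQa : Q.comp a ≠ 0 := by
      intro h
      rw [h, mul_zero] at ha
      have h3 : (P.comp a).natDegree = 0 := by rw [ha, natDegree_zero]
      rw [natDegree_comp, hPd] at h3
      rcases Nat.mul_eq_zero.mp h3 with h | h <;> omega
    rw [natDegree_X_mul hQa, natDegree_comp] at h2
    have h3 : a.natDegree = 1 := by
      have h4 : Q.natDegree * a.natDegree + 1 = N * a.natDegree := h2.symm
      have h5 : (Q.natDegree + 1) * a.natDegree ≤ N * a.natDegree :=
        Nat.mul_le_mul_right _ hQd
      nlinarith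
    -- linear
    set b := a.leadingCoeff with hb
    have hb0 : b ≠ 0 := by
      rw [hb, Ne, leadingCoeff_eq_zero]
      rintro rfl
      simp at h3
    have hab : ∀ u : F, a.eval u = b * u + a.coeff 0 := by
      intro u
      rw [eval_eq_sum_range, h3, Finset.sum_range_succ, Finset.sum_range_one, hb, leadingCoeff, h3]
      ring
    have hpt : ∀ i, x i = a.coeff 0 := by
      intro i
      have h4 := congrArg (eval ((x i - a.coeff 0) / b)) ha
      rw [eval_mul, eval_X, eval_comp, eval_comp, hab] at h4
      rw [mul_div_cancel₀ _ hb0, sub_add_cancel, hP, eval_polP] at h4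
      have h5 := (mul_eq_zero.mp h4.symm).resolve_right (hQ i)
      rw [div_eq_zero_iff] at h5
      exact sub_eq_zero.mp (h5.resolve_right hb0)
    have h6 : (⟨0, by omega⟩ : Fin N) = ⟨1, by omega⟩ := hx ((hpt _).trans (hpt _).symm)
    simp at h6

/-- **Odd case.** The rational power series in the image of the Mestre embedding are exactly the
invariants of the alternating group. -/
theorem odd_main [CharZero k] (hodd : Odd N) (h3 : 3 ≤ N) :
    ∃ (Ψ : FF k N →+* PowerSeries (FF k N)) (Q : (FF k N)[X]),
      (∀ c : k, Ψ (algebraMap k _ c) = PowerSeries.C (algebraMap k _ c)) ∧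
      (∀ θ, PowerSeries.constantCoeff (Ψ θ) = θ) ∧
      Q.natDegree < N ∧ (∀ i, Q.eval (xx k N i) ≠ 0) ∧
      ∏ i, (X - C (Ψ (xx k N i))) = pencil (polP (xx k N)) Q ∧
      ∀ θ, Rat (Ψ θ) ↔ ∀ σ ∈ alternatingGroup (Fin N), act k N σ θ = θ := by
  classical
  haveI : NeZero N := ⟨by omega⟩
  haveI : Nonempty (Fin N) := ⟨0⟩
  haveI : CharZero (FF k N) := charZero_of_injective_algebraMap (algebraMap k (FF k N)).injective
  have hx := xx_injective k N
  obtain ⟨r, hr1, hr2, hr3⟩ := exists_kernel (by simpa using hodd) (xx k N) hx (actR k N)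
    (fun σ i => act_xx k N σ i)
  set P := polP (xx k N) with hP
  set Q := polQ (xx k N) r with hQ
  have hQd : Q.natDegree < Fintype.card (Fin N) := natDegree_polQ_lt _ _
  have hQ0 : ∀ i, Q.eval (xx k N i) ≠ 0 := eval_polQ_ne_zero _ _ hx hr3
  obtain ⟨y, hy1, hy2⟩ := exists_roots (xx k N) hx Q hQd
  obtain ⟨Ψ, hΨ1, hΨ2, hΨ3⟩ := exists_psi y hy1
  refine ⟨Ψ, Q, hΨ2, hΨ3, by simpa using hQd, hQ0, ?_, ?_⟩
  · simp_rw [hΨ1]
    exact hy2
  -- invariance of the pencil
  have hPinv : ∀ σ, P.map (actR k N σ : FF k N →+* FF k N) = P := by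
    intro σ
    rw [hP, polP, Polynomial.map_prod]
    simp only [Polynomial.map_sub, Polynomial.map_X, Polynomial.map_C]
    rw [← Equiv.prod_comp σ (fun i => X - C (xx k N i))]
    refine Finset.prod_congr rfl fun i _ => ?_
    rw [← act_xx]
    rfl
  have hQinv : ∀ σ, Q.map (actR k N σ : FF k N →+* FF k N) = Q := by
    intro σ
    rw [hQ, polQ, Polynomial.map_sum]
    rw [← Equiv.sum_comp σ (fun i => C (r i ^ 2) *
      ∏ j ∈ Finset.univ.erase i, (X - C (xx k N j)))]
    refine Finset.sum_congr rfl fun i _ => ?_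
    rw [Polynomial.map_mul, Polynomial.map_C, Polynomial.map_prod]
    congr 1
    · rw [map_pow]
      have := hr2 σ i
      rw [← this]
      rfl
    · simp only [Polynomial.map_sub, Polynomial.map_X, Polynomial.map_C]
      have h1 : Finset.univ.erase (σ i) = (Finset.univ.erase i).map σ.toEmbedding := by
        ext j
        simp only [Finset.mem_erase, Finset.mem_univ, and_true, Finset.mem_map_equiv, ne_eq]
        rw [Equiv.symm_apply_eq]
      rw [h1, Finset.prod_map]
      refine Finset.prod_congr rfl fun j _ => ?_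
      change X - C (act k N σ (xx k N j)) = X - C (xx k N (σ j))
      rw [act_xx]
  -- Ψ is equivariant
  have hequiv : ∀ σ θ, PowerSeries.map (actR k N σ : FF k N →+* FF k N) (Ψ θ) =
      Ψ (act k N σ θ) := by
    intro σ θ
    have : ((PowerSeries.map (actR k N σ : FF k N →+* FF k N)).comp Ψ :
        FF k N →+* PowerSeries (FF k N)) = Ψ.comp (actR k N σ : FF k N →+* FF k N) := by
      refine ringHom_ext' ?_ ?_
      · intro c
        simp only [RingHom.comp_apply, hΨ2, PowerSeries.map_C]
        have h1 : (actR k N σ : FF k N →+* FF k N) (algebraMap k _ c) = algebraMap k _ c :=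
          (act k N σ).commutes c
        rw [h1, hΨ2]
      · intro i
        rw [RingHom.comp_apply, RingHom.comp_apply]
        have h1 : (actR k N σ : FF k N →+* FF k N) (xx k N i) = xx k N (σ i) := act_xx k N σ i
        rw [h1, hΨ1, hΨ1]
        refine root_unique (xx k N) hx Q y hy1 hy2 _ ?_ (σ i) ?_
        · have h2 : (pencil P Q).map (PowerSeries.map (actR k N σ : FF k N →+* FF k N)) =
              pencil P Q := by
            have h3 : (PowerSeries.map (actR k N σ : FF k N →+* FF k N)).comp PowerSeries.C =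
                (PowerSeries.C).comp (actR k N σ : FF k N →+* FF k N) := by
              ext1 a
              simp
            rw [pencil, Polynomial.map_sub, Polynomial.map_mul, Polynomial.map_C,
              PowerSeries.map_X, Polynomial.map_map, Polynomial.map_map, h3,
              ← Polynomial.map_map, ← Polynomial.map_map, hPinv, hQinv]
          rw [IsRoot, ← hP, ← h2, Polynomial.eval_map, Polynomial.eval₂_hom]
          have h4 : (pencil P Q).eval (y i) = 0 := by
            rw [← hy2, eval_prod]
            exact Finset.prod_eq_zero (Finset.mem_univ i) (by simp)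
          rw [h4, map_zero]
        · rw [← PowerSeries.coeff_zero_eq_constantCoeff_apply, PowerSeries.coeff_map,
            PowerSeries.coeff_zero_eq_constantCoeff_apply, hy1, h1]
    exact DFunLike.congr_fun this θ
  -- the subfield of rational elements
  let T : Subfield (FF k N) :=
    ((jj (F := FF k N)).fieldRange).comap ((algebraMap (PowerSeries (FF k N)) (LL (FF k N))).comp Ψ)
  have hT : ∀ θ, θ ∈ T ↔ Rat (Ψ θ) := fun θ => Iff.rfl
  -- stability
  have hTstab : ∀ σ θ, θ ∈ T → act k N σ θ ∈ T := by
    intro σ θ hθ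
    rw [hT, rat_iff] at hθ ⊢
    obtain ⟨p, q, hq, h⟩ := hθ
    refine ⟨p.map (actR k N σ : FF k N →+* FF k N), q.map (actR k N σ : FF k N →+* FF k N),
      (Polynomial.map_ne_zero_iff (actR k N σ).injective).mpr hq, ?_⟩
    have h1 := congrArg (PowerSeries.map (actR k N σ : FF k N →+* FF k N)) h
    have h2 : ∀ u : (FF k N)[X], ((u.map (actR k N σ : FF k N →+* FF k N) : (FF k N)[X]) :
        PowerSeries (FF k N)) = PowerSeries.map (actR k N σ : FF k N →+* FF k N) u := by
      intro u
      ext n
      simp
    rw [map_mul, hequiv] at h1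
    rw [h2, h2]
    exact h1
  -- symmetric elements
  have hTsymm : ∀ θ, (∀ σ, act k N σ θ = θ) → θ ∈ T := by
    intro θ hθ
    obtain ⟨s, d, hs, hd, hd0, h⟩ := fixed_frac (⊤ : Subgroup (Equiv.Perm (Fin N))) θ
      (fun σ _ => hθ σ)
    have hkey : ∀ u : MvPolynomial (Fin N) k, u.IsSymmetric →
        ∃ p : (FF k N)[X], Ψ (algebraMap _ _ u) = (p : PowerSeries (FF k N)) := by
      intro u hu
      obtain ⟨p, hp⟩ := aeval_symm_mem y (pencilPoly P Q) (by rw [pencilPoly_map, hy2]) u hu
      refine ⟨p, ?_⟩
      rw [← hp]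
      have : (Ψ.comp (algebraMap (MvPolynomial (Fin N) k) (FF k N)) :
          MvPolynomial (Fin N) k →+* PowerSeries (FF k N)) =
          (MvPolynomial.aeval y : MvPolynomial (Fin N) k →ₐ[k] PowerSeries (FF k N)) := by
        refine MvPolynomial.ringHom_ext ?_ ?_
        · intro c
          simp only [RingHom.comp_apply]
          have h5 : algebraMap (MvPolynomial (Fin N) k) (FF k N) (MvPolynomial.C c) =
              algebraMap k (FF k N) c := by
            rw [IsScalarTower.algebraMap_apply k (MvPolynomial (Fin N) k) (FF k N)]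
            rfl
          rw [h5, hΨ2]
          simp [PowerSeries.algebraMap_apply]
        · intro i
          simp only [RingHom.comp_apply]
          change Ψ (xx k N i) = _
          rw [hΨ1]
          simp
      exact DFunLike.congr_fun this u
    obtain ⟨p, hp⟩ := hkey s (fun σ => hs σ (Subgroup.mem_top σ))
    obtain ⟨q, hq⟩ := hkey d hd
    rw [hT, rat_iff]
    refine ⟨p, q, ?_, ?_⟩
    · rintro rfl
      rw [Polynomial.coe_zero, map_eq_zero_iff _ Ψ.injective,
        map_eq_zero_iff _ (IsFractionRing.injective _ (FF k N))] at hq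
      exact hd0 hq
    · rw [← hp, ← hq, ← map_mul, h]
  -- the Vandermonde determinant
  have hTv : (Matrix.vandermonde (xx k N)).det ∈ T := by
    obtain ⟨p, hp⟩ := vandermonde_mem (xx k N) r hx hr1 y hy2
    set c := (Matrix.vandermonde (xx k N)).det * ∏ i, r i with hc
    have hc0 : c ≠ 0 := mul_ne_zero vandermonde_xx_ne_zero (Finset.prod_ne_zero_iff.mpr
      fun i _ => hr3 i)
    have h1 : Ψ (Matrix.vandermonde (xx k N)).det = (Matrix.vandermonde y).det := by
      rw [RingHom.map_det]
      congr 1
      ext1 i j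
      simp [Matrix.vandermonde, hΨ1]
    rw [hT, h1, rat_iff]
    refine ⟨p, C c, C_ne_zero.mpr hc0, ?_⟩
    rw [Polynomial.coe_C]
    exact hp
  -- not everything
  have hTne : xx k N 0 ∉ T := by
    rw [hT, hΨ1]
    refine not_rat_root (xx k N) hx (by omega) Q (by simpa using hQd) hQ0 _ ?_
    rw [← hy2, eval_prod]
    exact Finset.prod_eq_zero (Finset.mem_univ 0) (by simp)
  -- the group fixing T
  let H : Subgroup (Equiv.Perm (Fin N)) :=
    { carrier := {σ | ∀ θ ∈ T, act k N σ θ = θ}
      one_mem' := by intro θ _; simp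
      mul_mem' := by
        intro σ τ hσ hτ θ hθ
        rw [map_mul, AlgEquiv.mul_apply, hτ θ hθ, hσ θ hθ]
      inv_mem' := by
        intro σ hσ θ hθ
        have := hσ θ hθ
        rw [map_inv]
        conv_lhs => rw [← this]
        simp }
  have hHmem : ∀ σ, σ ∈ H ↔ ∀ θ ∈ T, act k N σ θ = θ := fun σ => Iff.rfl
  haveI hHn : H.Normal := by
    constructor
    intro σ hσ τ θ hθ
    have h1 : act k N τ⁻¹ θ ∈ T := hTstab _ _ hθ
    rw [map_mul, map_mul, AlgEquiv.mul_apply, AlgEquiv.mul_apply, hσ _ h1, ← AlgEquiv.mul_apply,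
      ← map_mul]
    simp
  have hHalt : H ≤ alternatingGroup (Fin N) := by
    intro σ hσ
    rw [Equiv.Perm.mem_alternatingGroup]
    have h1 := hσ _ hTv
    rw [act_vandermonde] at h1
    have h2 : (((Equiv.Perm.sign σ : ℤˣ) : ℤ) : FF k N) = 1 := by
      have h3 := vandermonde_xx_ne_zero (k := k) (N := N)
      exact mul_right_cancel₀ h3 (h1.trans (one_mul _).symm)
    rcases Int.units_eq_one_or (Equiv.Perm.sign σ) with h | h
    · exact h
    · exfalso
      rw [h] at h2
      have h4 : (-1 : FF k N) = 1 := by simpa using h2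
      have h5 : (2 : FF k N) = 0 := by linear_combination -h4
      exact two_ne_zero h5
  -- Galois correspondence
  letI : MulSemiringAction (Equiv.Perm (Fin N)) (FF k N) :=
    MulSemiringAction.compHom (FF k N) (act k N)
  have hsmul : ∀ (σ : Equiv.Perm (Fin N)) (θ : FF k N), σ • θ = act k N σ θ := fun _ _ => rfl
  haveI : FaithfulSMul (Equiv.Perm (Fin N)) (FF k N) := by
    constructor
    intro σ τ h
    ext i
    have h1 := h (xx k N i)
    rw [hsmul, hsmul, act_xx, act_xx] at h1
    exact congrArg Fin.val (hx h1)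
  let L0 := FixedPoints.subfield (Equiv.Perm (Fin N)) (FF k N)
  have hL0 : ∀ θ : FF k N, θ ∈ L0 ↔ ∀ σ, act k N σ θ = θ := fun θ => Iff.rfl
  let T' : IntermediateField L0 (FF k N) :=
    { T with
      algebraMap_mem' := by
        intro u
        exact hTsymm _ ((hL0 _).mp u.2) }
  have hT' : ∀ θ, θ ∈ T' ↔ θ ∈ T := fun θ => Iff.rfl
  have hgal : ∀ θ, (∀ σ ∈ H, act k N σ θ = θ) → θ ∈ T := by
    intro θ hθ
    rw [← hT', ← IsGalois.fixedField_fixingSubgroup T', IntermediateField.mem_fixedField_iff]
    intro φ hφ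
    obtain ⟨σ, rfl⟩ := (FixedPoints.toAlgAut_surjective (Equiv.Perm (Fin N)) (FF k N)) φ
    have h1 : σ ∈ H := by
      intro θ' hθ'
      exact (IntermediateField.mem_fixingSubgroup_iff _ _).mp hφ θ' ((hT' _).mpr hθ')
    exact hθ σ h1
  have hHnt : H ≠ ⊥ := by
    intro h
    apply hTne
    apply hgal
    intro σ hσ
    rw [h, Subgroup.mem_bot] at hσ
    rw [hσ]
    simp
  have hHeq : alternatingGroup (Fin N) ≤ H := by
    rcases Nat.lt_or_ge N 5 with h5 | h5
    · have hN3 : N = 3 := by
        obtain ⟨m, hm⟩ := hodd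
        omega
      subst hN3
      have hcard : Nat.card (alternatingGroup (Fin 3)) = 3 := by
        have := two_mul_nat_card_alternatingGroup (α := Fin 3)
        rw [Nat.card_perm, Nat.card_eq_fintype_card (α := Fin 3), Fintype.card_fin] at this
        have h6 : Nat.factorial 3 = 6 := rfl
        omega
      have hdvd : Nat.card H ∣ 3 := by
        have := Subgroup.card_dvd_of_le hHalt
        rwa [hcard] at this
      have h1 : Nat.card H ≠ 1 := by
        intro h
        exact hHnt (Subgroup.card_eq_one.mp h)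
      have h2 : Nat.card H = 3 := ((Nat.dvd_prime Nat.prime_three).mp hdvd).resolve_left h1
      have h3 : H = alternatingGroup (Fin 3) :=
        Subgroup.eq_of_le_of_card_ge hHalt (by rw [h2, hcard])
      exact h3.ge
    · exact Equiv.Perm.alternatingGroup_le_of_normal (by simpa using h5)
        ((Subgroup.nontrivial_iff_ne_bot H).mpr hHnt)
  intro θ
  constructor
  · intro h σ hσ
    exact hHeq hσ θ ((hT θ).mpr h)
  · intro h
    rw [← hT]
    exact hgal θ fun σ hσ => h σ (hHalt hσ)

end Odd

end Pool.Agent.LibHPAlt
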