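import Mathlib

set_option autoImplicit false

namespace Pool.Agent.LibHPAlt

/-- The polynomial `p` in `n` variables is invariant under all even permutations of the
variables. -/
def EvenInvariant {k : Type} [Field k] {n : ℕ} (p : MvPolynomial (Fin n) k) : Prop :=
  ∀ σ : Equiv.Perm (Fin n), Equiv.Perm.sign σ = 1 → MvPolynomial.rename σ p = p

end Pool.Agent.LibHPAlt
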