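import Pool.Agent.LibHPAlt.A5
import Pool.Agent.LibHPAlt.Defs

set_option autoImplicit false
open Polynomial IntermediateField

namespace Pool.Agent.LibHPAlt

/-! ### Embeddings of fields with algebraically closed image -/

/-- The embedding `f` has algebraically closed image. -/
def Closed {A B : Type} [Field A] [Field B] (f : A →+* B) : Prop :=
  ∀ e : B, (∃ P : A[X], P ≠ 0 ∧ P.eval₂ f e = 0) → ∃ a, f a = e

theorem Closed.comp {A B D : Type} [Field A] [Field B] [Field D] {f : A →+* B} {g : B →+* D}
    (hf : Closed f) (hg : Closed g) : Closed (g.comp f) := by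
  rintro e ⟨P, hP, hPe⟩
  have h1 : (P.map f).eval₂ g e = 0 := by rw [eval₂_map]; exact hPe
  obtain ⟨b, rfl⟩ := hg e ⟨P.map f, (Polynomial.map_ne_zero_iff f.injective).mpr hP, h1⟩
  rw [← Polynomial.hom_eval₂, map_eq_zero_iff _ g.injective] at hPe
  obtain ⟨a, rfl⟩ := hf b ⟨P, hP, hPe⟩
  exact ⟨a, rfl⟩

/-- The field of constants is algebraically closed in the field of rational functions. -/
theorem closed_C (F : Type) [Field F] : Closed (RatFunc.C : F →+* RatFunc F) := by
  rintro e ⟨P, hP, hPe⟩
  by_contra h
  have h1 := RatFunc.transcendental_of_ne_C (f := e) (by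
    rintro ⟨c, hc⟩
    exact h ⟨c, hc.symm⟩)
  apply h1
  exact ⟨P, hP, hPe⟩

section LD

variable {L E E' : Type} [Field L] [Field E] [Field E'] [Algebra L E] [Algebra E E'] [Algebra L E']
  [IsScalarTower L E E']

/-- Linear disjointness: minimal polynomials stay minimal over a field in which the base field
is algebraically closed. -/
theorem natDegree_minpoly_le (hcl : Closed (algebraMap L E)) (w : E') (hw : IsIntegral L w) :
    (minpoly L w).natDegree ≤ (minpoly E w).natDegree := by
  have hwE : IsIntegral E w := hw.tower_top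
  have hdvd : minpoly E w ∣ (minpoly L w).map (algebraMap L E) :=
    minpoly.dvd_map_of_isScalarTower L E w
  have h1 := integralClosure.mem_lifts_of_monic_of_dvd_map E (minpoly.monic hw)
    (minpoly.monic hwE) hdvd
  rw [Polynomial.mem_lifts] at h1
  obtain ⟨q, hq⟩ := h1
  have h2 : minpoly E w ∈ Polynomial.lifts (algebraMap L E) := by
    rw [Polynomial.lifts_iff_coeff_lifts]
    intro n
    rw [← hq, coeff_map]
    have h3 : IsIntegral L (algebraMap (integralClosure L E) E (q.coeff n)) := (q.coeff n).2
    obtain ⟨p, hp, hp0⟩ := h3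
    obtain ⟨a, ha⟩ := hcl _ ⟨p, hp.ne_zero, hp0⟩
    exact ⟨a, ha⟩
  obtain ⟨q0, hq0, hq0d, hq0m⟩ := Polynomial.lifts_and_natDegree_eq_and_monic h2
    (minpoly.monic hwE)
  rw [← hq0d]
  refine Polynomial.natDegree_le_of_dvd ?_ hq0m.ne_zero
  refine minpoly.dvd L w ?_
  have h4 := minpoly.aeval E w
  rw [← hq0, Polynomial.aeval_map_algebraMap] at h4
  exact h4

/-- If `L` is algebraically closed in `E`, then `L(a)` is algebraically closed in `E(a)`. -/
theorem mem_adjoin_of_closed [CharZero L] (hcl : Closed (algebraMap L E)) (a e : E')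
    (ha : IsIntegral L a) (he : IsIntegral L e) (htop : E⟮a⟯ = ⊤) : e ∈ L⟮a⟯ := by
  have : FiniteDimensional L L⟮a⟯ := IntermediateField.adjoin.finiteDimensional ha
  have hfin : FiniteDimensional L L⟮a, e⟯ := by
    have h := IntermediateField.finiteDimensional_adjoin (K := L) (S := ({a, e} : Set E')) (by
      intro x hx
      rcases hx with rfl | hx
      · exact ha
      · rw [Set.mem_singleton_iff] at hx
        rw [hx]
        exact he)
    exact h
  obtain ⟨w0, hw0⟩ := Field.exists_primitive_element L L⟮a, e⟯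
  set w : E' := w0.1 with hw
  have hw1 : L⟮w⟯ = L⟮a, e⟯ := by
    have h1 := congrArg (IntermediateField.lift (F := L⟮a, e⟯)) hw0
    rw [IntermediateField.lift_top] at h1
    rw [← h1, IntermediateField.lift_adjoin_simple]
  have hwi : IsIntegral L w := by
    have h2 : IsIntegral L w0 := Algebra.IsIntegral.isIntegral w0
    exact h2.map L⟮a, e⟯.val
  have hle : L⟮a⟯ ≤ L⟮a, e⟯ := IntermediateField.adjoin.mono L _ _ (by simp)
  have haE : IsIntegral E a := ha.tower_top
  have hwE : IsIntegral E w := hwi.tower_top
  have hfinE : FiniteDimensional E E' := by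
    have h3 : FiniteDimensional E E⟮a⟯ := IntermediateField.adjoin.finiteDimensional haE
    rw [htop] at h3
    exact IntermediateField.topEquiv.toLinearEquiv.finiteDimensional
  have hrank : Module.finrank L L⟮a, e⟯ ≤ Module.finrank L L⟮a⟯ := by
    rw [← hw1, IntermediateField.adjoin.finrank hwi, IntermediateField.adjoin.finrank ha]
    calc (minpoly L w).natDegree ≤ (minpoly E w).natDegree := natDegree_minpoly_le hcl w hwi
      _ = Module.finrank E E⟮w⟯ := (IntermediateField.adjoin.finrank hwE).symm
      _ ≤ Module.finrank E E' := Submodule.finrank_le (E⟮w⟯).toSubmodule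
      _ = Module.finrank E (⊤ : IntermediateField E E') := by
          rw [IntermediateField.finrank_top']
      _ = Module.finrank E E⟮a⟯ := by rw [htop]
      _ = (minpoly E a).natDegree := IntermediateField.adjoin.finrank haE
      _ ≤ ((minpoly L a).map (algebraMap L E)).natDegree :=
          Polynomial.natDegree_le_of_dvd (minpoly.dvd_map_of_isScalarTower L E a)
            ((Polynomial.map_ne_zero_iff (algebraMap L E).injective).mpr (minpoly.ne_zero ha))
      _ = (minpoly L a).natDegree := Polynomial.natDegree_map _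
  have heq : L⟮a⟯ = L⟮a, e⟯ := IntermediateField.eq_of_le_of_finrank_le hle hrank
  rw [heq]
  exact IntermediateField.subset_adjoin L _ (by simp)

end LD

/-! ### The invariants of the alternating group -/

/-- The polynomials in `n` variables which are invariant under the even permutations of the
variables. -/
def altInv (k : Type) [Field k] (n : ℕ) : Subalgebra k (MvPolynomial (Fin n) k) where
  carrier := {p | EvenInvariant p}
  mul_mem' := by
    intro p q hp hq σ hσ
    rw [map_mul, hp σ hσ, hq σ hσ]
  add_mem' := by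
    intro p q hp hq σ hσ
    rw [map_add, hp σ hσ, hq σ hσ]
  algebraMap_mem' := by
    intro c σ _
    exact AlgHom.commutes _ c

section Alt

variable (k : Type) [Field k] (n : ℕ)

theorem inclAlt_inj : Function.Injective
    ((algebraMap (MvPolynomial (Fin n) k) (FF k n)).comp
      ((altInv k n).val : altInv k n →+* MvPolynomial (Fin n) k)) := by
  rw [RingHom.coe_comp]
  exact (IsFractionRing.injective _ _).comp Subtype.val_injective

/-- The field of fractions of the invariants of the alternating group, inside `k(x)`. -/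
noncomputable def inclAlt : FractionRing (altInv k n) →+* FF k n :=
  IsFractionRing.lift (A := altInv k n) (inclAlt_inj k n)

theorem inclAlt_algebraMap (p : altInv k n) :
    inclAlt k n (algebraMap _ _ p) = algebraMap _ _ (p : MvPolynomial (Fin n) k) := by
  rw [inclAlt, IsFractionRing.lift_algebraMap]
  rfl

theorem inclAlt_k (c : k) : inclAlt k n (algebraMap k _ c) = algebraMap k _ c := by
  rw [IsScalarTower.algebraMap_apply k (altInv k n) (FractionRing (altInv k n)),
    inclAlt_algebraMap, IsScalarTower.algebraMap_apply k (MvPolynomial (Fin n) k) (FF k n)]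
  rfl

theorem mem_range_inclAlt (θ : FF k n) :
    (∃ u, inclAlt k n u = θ) ↔ ∀ σ ∈ alternatingGroup (Fin n), act k n σ θ = θ := by
  constructor
  · rintro ⟨u, rfl⟩ σ hσ
    obtain ⟨p, q, hq, rfl⟩ := IsFractionRing.div_surjective (altInv k n) u
    rw [map_div₀, map_div₀, inclAlt_algebraMap, inclAlt_algebraMap, act_algebraMap, act_algebraMap]
    rw [p.2 σ (Equiv.Perm.mem_alternatingGroup.mp hσ), q.2 σ (Equiv.Perm.mem_alternatingGroup.mp hσ)]
  · intro h
    obtain ⟨s, d, hs, hd, hd0, heq⟩ := fixed_frac (alternatingGroup (Fin n)) θ h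
    let s' : altInv k n := ⟨s, fun σ hσ => hs σ (Equiv.Perm.mem_alternatingGroup.mpr hσ)⟩
    let d' : altInv k n := ⟨d, fun σ _ => hd σ⟩
    refine ⟨algebraMap _ _ s' / algebraMap _ _ d', ?_⟩
    rw [map_div₀, inclAlt_algebraMap, inclAlt_algebraMap]
    have hd1 : algebraMap _ (FF k n) d ≠ 0 :=
      (map_ne_zero_iff _ (IsFractionRing.injective _ (FF k n))).mpr hd0
    rw [div_eq_iff hd1]
    exact heq.symm

end Alt

/-- Lifting a ring homomorphism through an injective one. -/
theorem exists_lift {K A B : Type} [Field K] [Field A] [Field B] (j : A →+* B) (f : K →+* B)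
    (h : ∀ u, ∃ e, j e = f u) : ∃ g : K →+* A, ∀ u, j (g u) = f u := by
  choose g hg using h
  refine ⟨{ toFun := g, map_one' := ?_, map_mul' := ?_, map_zero' := ?_, map_add' := ?_ }, hg⟩
  · apply j.injective; rw [hg, map_one, map_one]
  · intro x y; apply j.injective; rw [hg, map_mul, map_mul, hg, hg]
  · apply j.injective; rw [hg, map_zero, map_zero]
  · intro x y; apply j.injective; rw [hg, map_add, map_add, hg, hg]

/-- **Odd case.** -/
theorem closed_odd (k : Type) [Field k] [CharZero k] (N : ℕ) (hodd : Odd N) (h3 : 3 ≤ N) :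
    ∃ Θ : FractionRing (altInv k N) →+* RatFunc (FF k N),
      (∀ c : k, Θ (algebraMap k _ c) = RatFunc.C (algebraMap k _ c)) ∧ Closed Θ := by
  obtain ⟨Ψ, Q, h1, h2, -, -, -, h4⟩ := odd_main (k := k) hodd h3
  obtain ⟨Θ, hΘ⟩ := exists_lift (jj (F := FF k N))
    (((algebraMap (PowerSeries (FF k N)) (LL (FF k N))).comp Ψ).comp (inclAlt k N)) (by
      intro u
      exact (h4 _).mpr ((mem_range_inclAlt k N _).mp ⟨u, rfl⟩))
  refine ⟨Θ, ?_, ?_⟩
  · intro c
    apply (jj (F := FF k N)).injective
    rw [hΘ, jj_C, RingHom.comp_apply, inclAlt_k, RingHom.comp_apply, h1]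
  · rintro e ⟨P, hP, hPe⟩
    obtain ⟨θ, hθ⟩ := psi_closed Ψ h2 (jj e) (P.map (inclAlt k N))
      ((Polynomial.map_ne_zero_iff (inclAlt k N).injective).mpr hP) (by
        rw [eval₂_map]
        have h5 := congrArg (jj (F := FF k N)) hPe
        rw [map_zero, Polynomial.hom_eval₂] at h5
        have h6 : (jj (F := FF k N)).comp Θ =
            (((algebraMap (PowerSeries (FF k N)) (LL (FF k N))).comp Ψ).comp (inclAlt k N)) :=
          RingHom.ext hΘ
        rw [h6] at h5
        exact h5)
    obtain ⟨u, hu⟩ := (mem_range_inclAlt k N θ).mpr ((h4 θ).mp ⟨e, hθ.symm⟩)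
    refine ⟨u, ?_⟩
    apply (jj (F := FF k N)).injective
    rw [hΘ, RingHom.comp_apply, hu]
    exact hθ

end Pool.Agent.LibHPAlt
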