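import Pool.Agent.LibHPAlt.A6

set_option autoImplicit false
open Polynomial IntermediateField

namespace Pool.Agent.LibHPAlt

/-! ### Even number of variables -/

/-- Base change of an embedding with algebraically closed image along a finite extension. -/
theorem closed_ext {L E E' M : Type} [Field L] [Field E] [Field E'] [Field M] [CharZero L]
    (f : L →+* E) (j : E →+* E') (i : L →+* M) (g : M →+* E')
    (hcomm : g.comp i = j.comp f) (hf : Closed f)
    (hM : ∀ m : M, ∃ P : L[X], P ≠ 0 ∧ P.eval₂ i m = 0) (α : M)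
    (htop : ∀ S : Subfield E', (∀ e, j e ∈ S) → g α ∈ S → ∀ z, z ∈ S) : Closed g := by
  letI : Algebra L E := f.toAlgebra
  letI : Algebra E E' := j.toAlgebra
  letI : Algebra L E' := (j.comp f).toAlgebra
  letI : Algebra L M := i.toAlgebra
  letI : Algebra M E' := g.toAlgebra
  haveI : IsScalarTower L E E' := IsScalarTower.of_algebraMap_eq fun _ => rfl
  haveI : IsScalarTower L M E' := IsScalarTower.of_algebraMap_eq fun x =>
    (DFunLike.congr_fun hcomm x).symm
  haveI : Algebra.IsAlgebraic L M := ⟨fun m => by
    obtain ⟨P, hP, h⟩ := hM m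
    exact ⟨P, hP, h⟩⟩
  rintro e ⟨P, hP, hPe⟩
  have he1 : IsAlgebraic M e := ⟨P, hP, hPe⟩
  have he : IsAlgebraic L e := he1.restrictScalars L
  have hα : IsAlgebraic L (g α) := by
    have h1 : IsAlgebraic L α := Algebra.IsAlgebraic.isAlgebraic α
    exact h1.algebraMap
  have hcl : Closed (algebraMap L E) := hf
  have h2 : e ∈ L⟮g α⟯ := by
    refine mem_adjoin_of_closed (E := E) hcl (g α) e hα.isIntegral he.isIntegral ?_
    rw [eq_top_iff]
    intro z _
    refine htop (E⟮g α⟯).toSubfield ?_ ?_ z
    · intro e'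
      exact (E⟮g α⟯).algebraMap_mem e'
    · exact IntermediateField.mem_adjoin_simple_self E (g α)
  have h3 : L⟮g α⟯ ≤ (IsScalarTower.toAlgHom L M E').fieldRange := by
    rw [IntermediateField.adjoin_simple_le_iff]
    exact ⟨α, rfl⟩
  obtain ⟨m, hm⟩ := h3 h2
  exact ⟨m, hm⟩

section Incl

variable (k : Type) [Field k] (n : ℕ)

theorem incS_inj : Function.Injective
    ((algebraMap (MvPolynomial (Fin (n + 1)) k) (FF k (n + 1))).comp
      ((MvPolynomial.rename Fin.succ : MvPolynomial (Fin n) k →ₐ[k] MvPolynomial (Fin (n + 1)) k) :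
        MvPolynomial (Fin n) k →+* MvPolynomial (Fin (n + 1)) k)) := by
  rw [RingHom.coe_comp]
  exact (IsFractionRing.injective _ _).comp
    (MvPolynomial.rename_injective _ (Fin.succ_injective n))

/-- `k(x_1, ..., x_n) → k(x_0, ..., x_n)`. -/
noncomputable def incS : FF k n →+* FF k (n + 1) :=
  IsFractionRing.lift (A := MvPolynomial (Fin n) k) (incS_inj k n)

theorem incS_algebraMap (p : MvPolynomial (Fin n) k) :
    incS k n (algebraMap _ _ p) = algebraMap _ _ (MvPolynomial.rename Fin.succ p) := by
  rw [incS, IsFractionRing.lift_algebraMap]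
  rfl

theorem incS_k (c : k) : incS k n (algebraMap k _ c) = algebraMap k _ c := by
  rw [IsScalarTower.algebraMap_apply k (MvPolynomial (Fin n) k) (FF k n),
    incS_algebraMap, IsScalarTower.algebraMap_apply k (MvPolynomial (Fin (n + 1)) k) (FF k (n + 1))]
  congr 1
  exact AlgHom.commutes _ c

theorem incS_xx (i : Fin n) : incS k n (xx k n i) = xx k (n + 1) i.succ := by
  rw [xx, incS_algebraMap, MvPolynomial.rename_X]
  rfl

theorem closed_incS : Closed (incS k n) := by
  -- the map to `RatFunc (FF k n)`
  let w0 : MvPolynomial (Fin (n + 1)) k →+* RatFunc (FF k n) :=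
    ((algebraMap (FF k n)[X] (RatFunc (FF k n))).comp
      (Polynomial.mapRingHom (algebraMap (MvPolynomial (Fin n) k) (FF k n)))).comp
      (MvPolynomial.finSuccEquiv k n : MvPolynomial (Fin (n + 1)) k →+* (MvPolynomial (Fin n) k)[X])
  have hw0 : Function.Injective w0 := by
    simp only [w0, RingHom.coe_comp]
    refine ((IsFractionRing.injective _ _).comp ?_).comp (MvPolynomial.finSuccEquiv k n).injective
    exact Polynomial.map_injective _ (IsFractionRing.injective _ _)
  let w : FF k (n + 1) →+* RatFunc (FF k n) := IsFractionRing.lift hw0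
  have hw : ∀ p, w (algebraMap _ _ p) = w0 p := fun p => IsFractionRing.lift_algebraMap hw0 p
  have hcomp : w.comp (incS k n) = RatFunc.C := by
    refine ringHom_ext' ?_ ?_
    · intro c
      rw [RingHom.comp_apply, incS_k,
        IsScalarTower.algebraMap_apply k (MvPolynomial (Fin (n + 1)) k) (FF k (n + 1)), hw]
      simp only [w0, RingHom.comp_apply]
      have h1 : (MvPolynomial.finSuccEquiv k n : MvPolynomial (Fin (n + 1)) k →+* (MvPolynomial (Fin n) k)[X])
          (algebraMap k _ c) = C (MvPolynomial.C c) := by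
        have h2 := (MvPolynomial.finSuccEquiv k n).commutes c
        exact h2
      rw [h1]
      simp only [coe_mapRingHom, map_C, RatFunc.algebraMap_C]
      congr 1
    · intro i
      rw [RingHom.comp_apply, incS_xx, xx, hw]
      simp only [w0, RingHom.comp_apply]
      have h1 : (MvPolynomial.finSuccEquiv k n : MvPolynomial (Fin (n + 1)) k →+* (MvPolynomial (Fin n) k)[X])
          (MvPolynomial.X i.succ) = C (MvPolynomial.X i) := MvPolynomial.finSuccEquiv_X_succ
      rw [h1]
      simp only [coe_mapRingHom, map_C, RatFunc.algebraMap_C]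
      rfl
  rintro e ⟨P, hP, hPe⟩
  obtain ⟨c, hc⟩ := closed_C (FF k n) (w e) ⟨P, hP, by
    have h1 := congrArg w hPe
    rw [map_zero, Polynomial.hom_eval₂, hcomp] at h1
    exact h1⟩
  refine ⟨c, ?_⟩
  apply w.injective
  rw [← hc, ← hcomp]
  rfl

variable {k n}

theorem act_incS (τ : Equiv.Perm (Fin n)) (θ : FF k n) :
    act k (n + 1) (Equiv.Perm.decomposeFin.symm (0, τ)) (incS k n θ) = incS k n (act k n τ θ) := by
  have : ((act k (n + 1) (Equiv.Perm.decomposeFin.symm (0, τ)) : FF k (n + 1) →+* FF k (n + 1)).comp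
      (incS k n)) = (incS k n).comp (act k n τ : FF k n →+* FF k n) := by
    refine ringHom_ext' ?_ ?_
    · intro c
      rw [RingHom.comp_apply, RingHom.comp_apply, incS_k]
      have h1 : (act k n τ : FF k n →+* FF k n) (algebraMap k _ c) = algebraMap k _ c :=
        (act k n τ).commutes c
      rw [h1, incS_k]
      exact (act k (n + 1) _).commutes c
    · intro i
      rw [RingHom.comp_apply, RingHom.comp_apply, incS_xx]
      have h1 : (act k n τ : FF k n →+* FF k n) (xx k n i) = xx k n (τ i) := act_xx k n τ i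
      rw [h1, incS_xx]
      have h2 := act_xx k (n + 1) (Equiv.Perm.decomposeFin.symm (0, τ)) i.succ
      rw [Equiv.Perm.decomposeFin_symm_apply_succ] at h2
      simpa using h2
  exact DFunLike.congr_fun this θ

end Incl

end Pool.Agent.LibHPAlt
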