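import Pool.Agent.LibHPAlt.A7

set_option autoImplicit false
open Polynomial IntermediateField

namespace Pool.Agent.LibHPAlt

section Even

variable {k : Type} [Field k] {n : ℕ}

/-- An even permutation moving `0` to `i`. -/
theorem exists_even {N : ℕ} (h3 : 3 ≤ N) (a i : Fin N) :
    ∃ σ ∈ alternatingGroup (Fin N), σ a = i := by
  by_cases hi : i = a
  · exact ⟨1, Subgroup.one_mem _, by simp [hi]⟩
  · obtain ⟨j, hj⟩ : ∃ j : Fin N, j ∉ ({a, i} : Finset (Fin N)) := by
      by_contra hcon
      push Not at hcon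
      have h1 : (Finset.univ : Finset (Fin N)) ⊆ {a, i} := fun j _ => hcon j
      have h2 := Finset.card_le_card h1
      have h4 : ({a, i} : Finset (Fin N)).card ≤ 2 := Finset.card_le_two
      simp at h2
      omega
    simp only [Finset.mem_insert, Finset.mem_singleton, not_or] at hj
    refine ⟨Equiv.swap a i * Equiv.swap i j, ?_, ?_⟩
    · rw [Equiv.Perm.mem_alternatingGroup, map_mul, Equiv.Perm.sign_swap (Ne.symm hi),
        Equiv.Perm.sign_swap (Ne.symm hj.2)]
      simp
    · rw [Equiv.Perm.mul_apply, Equiv.swap_apply_of_ne_of_ne (Ne.symm hi) (Ne.symm hj.1),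
        Equiv.swap_apply_left]

/-- **The core of the even case.** For `N` odd, the field of rational functions in `N` variables
which are fixed by the even permutations fixing `a` embeds in `F(z)`, with algebraically closed
image. -/
theorem even_core (k : Type) [Field k] [CharZero k] (N : ℕ) (hodd : Odd N) (h3 : 3 ≤ N)
    (a : Fin N) :
    ∃ (M : Subfield (FF k N)) (g : M →+* RatFunc (FF k N)),
      (∀ θ, θ ∈ M ↔ ∀ σ ∈ alternatingGroup (Fin N), σ a = a → act k N σ θ = θ) ∧ Closed g ∧
      ∀ (c : k) (hc : algebraMap k (FF k N) c ∈ M),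
        g ⟨algebraMap k (FF k N) c, hc⟩ = RatFunc.C (algebraMap k (FF k N) c) := by
  classical
  obtain ⟨Ψ, Q, hΨk, hΨc, hQd, hQ0, hprod, hrat⟩ := odd_main (k := k) hodd h3
  have : CharZero (FF k N) := charZero_of_injective_algebraMap (algebraMap k (FF k N)).injective
  have hx := xx_injective k N
  -- the group action
  let _ : MulSemiringAction (Equiv.Perm (Fin N)) (FF k N) :=
    MulSemiringAction.compHom (FF k N) (act k N)
  have hsmul : ∀ (σ : Equiv.Perm (Fin N)) (θ : (FF k N)), σ • θ = act k N σ θ := fun _ _ => rfl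
  have : FaithfulSMul (Equiv.Perm (Fin N)) (FF k N) := by
    constructor
    intro σ τ h
    ext i
    have h1 := h (xx k N i)
    rw [hsmul, hsmul, act_xx, act_xx] at h1
    exact congrArg Fin.val (hx h1)
  let A := alternatingGroup (Fin N)
  let L : Subfield (FF k N) := FixedPoints.subfield A (FF k N)
  have hL : ∀ θ : (FF k N), θ ∈ L ↔ ∀ σ ∈ A, act k N σ θ = θ := by
    intro θ
    constructor
    · intro h σ hσ
      exact h ⟨σ, hσ⟩
    · intro h σ
      exact h σ.1 σ.2
  -- the embedding of L
  obtain ⟨ΘL, hΘL⟩ := exists_lift (jj (F := FF k N))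
    (((algebraMap (PowerSeries (FF k N)) (LL (FF k N))).comp Ψ).comp L.subtype) (by
      intro u
      exact (hrat _).mpr ((hL _).mp u.2))
  have hΘLc : Closed ΘL := by
    rintro e ⟨P, hP, hPe⟩
    obtain ⟨θ, hθ⟩ := psi_closed Ψ hΨc (jj e) (P.map L.subtype)
      ((Polynomial.map_ne_zero_iff L.subtype.injective).mpr hP) (by
        rw [eval₂_map]
        have h5 := congrArg (jj (F := FF k N)) hPe
        rw [map_zero, Polynomial.hom_eval₂] at h5
        have h6 : (jj (F := FF k N)).comp ΘL =
            (((algebraMap (PowerSeries (FF k N)) (LL (FF k N))).comp Ψ).comp L.subtype) :=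
          RingHom.ext hΘL
        rw [h6] at h5
        exact h5)
    have hθL : θ ∈ L := (hL θ).mpr ((hrat θ).mp ⟨e, hθ.symm⟩)
    refine ⟨⟨θ, hθL⟩, ?_⟩
    apply (jj (F := FF k N)).injective
    rw [hΘL]
    exact hθ
  -- the generic polynomial over L
  obtain ⟨PL, hPL, hPLm⟩ : ∃ PL : L[X], PL.map L.subtype = polP (xx k N) ∧ PL.Monic := by
    have h1 : polP (xx k N) ∈ Polynomial.lifts L.subtype := by
      rw [Polynomial.lifts_iff_coeff_lifts]
      intro m
      refine ⟨⟨(polP (xx k N)).coeff m, ?_⟩, rfl⟩
      rw [hL]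
      intro σ _
      have h2 : (polP (xx k N)).map (act k N σ : FF k N →+* FF k N) = polP (xx k N) := by
        rw [polP, Polynomial.map_prod]
        simp only [Polynomial.map_sub, Polynomial.map_X, Polynomial.map_C]
        rw [← Equiv.prod_comp σ (fun i => X - C (xx k N i))]
        refine Finset.prod_congr rfl fun i _ => ?_
        rw [← act_xx]
        rfl
      conv_rhs => rw [← h2]
      rw [Polynomial.coeff_map]
      rfl
    obtain ⟨q, hq, -, hqm⟩ := Polynomial.lifts_and_natDegree_eq_and_monic h1 (polP_monic _)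
    exact ⟨q, hq, hqm⟩
  have hPLd : PL.natDegree = N := by
    have h1 := natDegree_polP (xx k N)
    rw [← hPL, Polynomial.natDegree_map] at h1
    simpa using h1
  obtain ⟨x0, hx0⟩ : ∃ x0 : FF k N, x0 = xx k N a := ⟨_, rfl⟩
  have hPLroot : Polynomial.aeval x0 PL = 0 := by
    have h1 := eval_polP (xx k N) a
    rw [← hPL, Polynomial.eval_map] at h1
    rw [hx0]
    exact h1
  have hx0int : IsIntegral L x0 := ⟨PL, hPLm, hPLroot⟩
  have hmin : minpoly L x0 = PL := by
    symm
    refine Polynomial.eq_of_monic_of_dvd_of_natDegree_le (minpoly.monic hx0int) hPLm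
      (minpoly.dvd L x0 hPLroot) ?_
    rw [hPLd]
    have h1 : polP (xx k N) ∣ (minpoly L x0).map L.subtype := by
      rw [polP]
      refine Finset.prod_dvd_of_coprime (fun i _ j _ hij => ?_) fun i _ => ?_
      · refine isCoprime_X_sub_C_of_isUnit_sub ?_
        exact (sub_ne_zero.mpr fun h => hij (hx h)).isUnit
      · rw [dvd_iff_isRoot, IsRoot]
        obtain ⟨σ, hσ, hσ0⟩ := exists_even h3 a i
        have h2 : (minpoly L x0).eval₂ (algebraMap L (FF k N)) x0 = 0 := minpoly.aeval L x0
        have h4 := congrArg (act k N σ : FF k N →+* FF k N) h2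
        rw [map_zero, Polynomial.hom_eval₂] at h4
        have h6 : ((act k N σ : FF k N →+* FF k N).comp (algebraMap L (FF k N))) = L.subtype := by
          refine RingHom.ext fun u => ?_
          exact (hL _).mp u.2 σ hσ
        have h7 : (act k N σ : FF k N →+* FF k N) x0 = xx k N i := by
          rw [hx0, ← hσ0]
          exact act_xx k N σ a
        rw [h6, h7] at h4
        rw [Polynomial.eval_map]
        exact h4
    have h2 := Polynomial.natDegree_le_of_dvd h1
      ((Polynomial.map_ne_zero_iff L.subtype.injective).mpr (minpoly.ne_zero hx0int))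
    rw [natDegree_polP, Polynomial.natDegree_map] at h2
    simpa using h2
  -- `t ↦ P(z) / Q(z)`
  obtain ⟨z, hz⟩ : ∃ z : RatFunc (FF k N), z = RatFunc.X := ⟨_, rfl⟩
  obtain ⟨P, hP⟩ : ∃ P : (FF k N)[X], P = polP (xx k N) := ⟨_, rfl⟩
  have hPd : P.natDegree = N := by rw [hP, natDegree_polP]; simp
  have hQne : Q ≠ 0 := by
    intro h
    apply hQ0 a
    rw [h, eval_zero]
  obtain ⟨Pz, hPz⟩ : ∃ Pz : RatFunc (FF k N), Pz = algebraMap (FF k N)[X] (RatFunc (FF k N)) P :=
    ⟨_, rfl⟩
  obtain ⟨Qz, hQz⟩ : ∃ Qz : RatFunc (FF k N), Qz = algebraMap (FF k N)[X] (RatFunc (FF k N)) Q :=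
    ⟨_, rfl⟩
  have hQz0 : Qz ≠ 0 := by
    rw [hQz]
    exact (map_ne_zero_iff _ (IsFractionRing.injective (FF k N)[X] (RatFunc (FF k N)))).mpr hQne
  obtain ⟨t, ht⟩ : ∃ t : RatFunc (FF k N), t = Pz / Qz := ⟨_, rfl⟩
  have httr : Transcendental (FF k N) t := by
    refine RatFunc.transcendental_of_ne_C (f := t) ?_
    rintro ⟨c, hc⟩
    rw [ht, div_eq_iff hQz0, ← RatFunc.algebraMap_C, hPz, hQz, ← map_mul] at hc
    have h1 := IsFractionRing.injective (FF k N)[X] (RatFunc (FF k N)) hc
    have h4 := congrArg natDegree h1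
    have h5 := natDegree_C_mul_le c Q
    rw [hPd] at h4
    omega
  let u0 : (FF k N)[X] →+* RatFunc (FF k N) :=
    (Polynomial.aeval t : (FF k N)[X] →ₐ[FF k N] RatFunc (FF k N))
  have hu0 : Function.Injective u0 := transcendental_iff_injective.mp httr
  let u : RatFunc (FF k N) →+* RatFunc (FF k N) := IsFractionRing.lift hu0
  have hu : ∀ p : (FF k N)[X], u (algebraMap _ _ p) = Polynomial.aeval t p :=
    fun p => IsFractionRing.lift_algebraMap hu0 p
  have huC : ∀ c : FF k N, u (RatFunc.C c) = RatFunc.C c := by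
    intro c
    rw [← RatFunc.algebraMap_C, hu, Polynomial.aeval_C]
    rfl
  -- the root
  have hmapΘ : PL.map ΘL =
      (pencilPoly P Q).map (algebraMap (FF k N)[X] (RatFunc (FF k N))) := by
    apply Polynomial.map_injective _ (jj (F := FF k N)).injective
    rw [Polynomial.map_map, Polynomial.map_map]
    have h1 : (jj (F := FF k N)).comp ΘL =
        (((algebraMap (PowerSeries (FF k N)) (LL (FF k N))).comp Ψ).comp L.subtype) :=
      RingHom.ext hΘL
    have h4 : (jj.comp (algebraMap (FF k N)[X] (RatFunc (FF k N))) : (FF k N)[X] →+* LL (FF k N)) =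
        (algebraMap (PowerSeries (FF k N)) (LL (FF k N))).comp coeToPowerSeries.ringHom :=
      RingHom.ext fun p => jj_algebraMap p
    rw [h1, h4, ← Polynomial.map_map, ← Polynomial.map_map, ← Polynomial.map_map, hPL, hP,
      pencilPoly_map, ← hprod, polP, Polynomial.map_prod]
    simp only [Polynomial.map_sub, Polynomial.map_X, Polynomial.map_C]
  have hroot : (PL.map (u.comp ΘL)).eval z = 0 := by
    rw [← Polynomial.map_map, hmapΘ, pencilPoly, Polynomial.map_sub, Polynomial.map_mul,
      Polynomial.map_C, Polynomial.map_sub, Polynomial.map_mul, Polynomial.map_C,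
      Polynomial.map_map, Polynomial.map_map, Polynomial.map_map, Polynomial.map_map, hu,
      Polynomial.aeval_X]
    have h1 : ((u.comp (algebraMap (FF k N)[X] (RatFunc (FF k N)))).comp C) =
        (RatFunc.C : FF k N →+* RatFunc (FF k N)) := by
      refine RingHom.ext fun c => ?_
      rw [RingHom.comp_apply, RingHom.comp_apply, RatFunc.algebraMap_C, huC]
    rw [h1, eval_sub, eval_mul, eval_C, eval_map, eval_map]
    have h4 : ∀ p : (FF k N)[X], p.eval₂ (RatFunc.C : FF k N →+* RatFunc (FF k N)) z =
        algebraMap _ _ p := by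
      intro p
      have h5 := RatFunc.algebraMap_eq_C (K := FF k N)
      rw [← h5, ← Polynomial.aeval_def, hz, RatFunc.aeval_X_left_eq_algebraMap]
    rw [h4, h4, ← hPz, ← hQz, ht, div_mul_cancel₀ _ hQz0, sub_self]
  -- the field M = L(x0)
  let _ : Algebra L (RatFunc (FF k N)) := (u.comp ΘL).toAlgebra
  let M : IntermediateField L (FF k N) := L⟮x0⟯
  have hrootm : Polynomial.aeval z (minpoly L (IntermediateField.adjoin.powerBasis hx0int).gen) =
      0 := by
    rw [IntermediateField.adjoin.powerBasis_gen, IntermediateField.minpoly_gen, hmin,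
      Polynomial.aeval_def, ← Polynomial.eval_map]
    exact hroot
  let g0 : M →ₐ[L] RatFunc (FF k N) := (IntermediateField.adjoin.powerBasis hx0int).lift z hrootm
  have hg0gen : g0 (IntermediateField.AdjoinSimple.gen L x0) = z := by
    have h1 := (IntermediateField.adjoin.powerBasis hx0int).lift_gen z hrootm
    rw [IntermediateField.adjoin.powerBasis_gen] at h1
    exact h1
  have : FiniteDimensional L (FF k N) := by
    change FiniteDimensional (FixedPoints.subfield A (FF k N)) (FF k N)
    infer_instance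
  have : IsGalois L (FF k N) := by
    change IsGalois (FixedPoints.subfield A (FF k N)) (FF k N)
    infer_instance
  have : Algebra.IsIntegral L (FF k N) := inferInstance
  have hgclosed : Closed (g0 : M →+* RatFunc (FF k N)) := by
    refine closed_ext (L := L) ΘL u (algebraMap L M) (g0 : M →+* RatFunc (FF k N)) ?_ hΘLc ?_
      (IntermediateField.AdjoinSimple.gen L x0) ?_
    · refine RingHom.ext fun c => ?_
      exact g0.commutes c
    · intro m
      have h1 : IsIntegral L (m : FF k N) := Algebra.IsIntegral.isIntegral _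
      obtain ⟨p, hp, hp0⟩ := h1
      refine ⟨p, hp.ne_zero, ?_⟩
      apply M.val.injective
      rw [map_zero]
      have h4 := Polynomial.hom_eval₂ p (algebraMap L M) (M.val : M →+* FF k N) m
      change (M.val : M →+* FF k N) _ = 0
      rw [h4]
      exact hp0
    · intro S hS1 hS2 w
      have hS2' : z ∈ S := by
        rw [← hg0gen]
        exact hS2
      have hSC : ∀ c : FF k N, RatFunc.C c ∈ S := by
        intro c
        rw [← huC c]
        exact hS1 _
      have hSp : ∀ p : (FF k N)[X], algebraMap (FF k N)[X] (RatFunc (FF k N)) p ∈ S := by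
        intro p
        induction p using Polynomial.induction_on' with
        | add p q hp hq =>
          rw [map_add]
          exact S.add_mem hp hq
        | monomial m c =>
          rw [← C_mul_X_pow_eq_monomial, map_mul, map_pow, RatFunc.algebraMap_C,
            RatFunc.algebraMap_X, ← hz]
          exact S.mul_mem (hSC c) (S.pow_mem hS2' _)
      obtain ⟨p, q, -, rfl⟩ := IsFractionRing.div_surjective (FF k N)[X] w
      exact S.div_mem (hSp p) (hSp q)
  -- the elements of M are those fixed by the even permutations fixing `a`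
  have hMfix : ∀ m : FF k N, m ∈ M ↔ ∀ σ ∈ A, σ a = a → act k N σ m = m := by
    intro m
    have h0 : m ∈ M ↔ m ∈ IntermediateField.fixedField (IntermediateField.fixingSubgroup M) := by
      rw [IsGalois.fixedField_fixingSubgroup M]
    rw [h0, IntermediateField.mem_fixedField_iff]
    constructor
    · intro h σ hσ hσ0
      refine h ((MulSemiringAction.toAlgAut A L (FF k N)) ⟨σ, hσ⟩) ?_
      have h5 : M ≤ IntermediateField.fixedField
          (Subgroup.zpowers ((MulSemiringAction.toAlgAut A L (FF k N)) ⟨σ, hσ⟩)) := by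
        rw [IntermediateField.adjoin_simple_le_iff, IntermediateField.mem_fixedField_iff]
        intro ψ hψ
        have h5 : Subgroup.zpowers ((MulSemiringAction.toAlgAut A L (FF k N)) ⟨σ, hσ⟩) ≤
            MulAction.stabilizer (FF k N ≃ₐ[L] FF k N) x0 := by
          rw [Subgroup.zpowers_le, MulAction.mem_stabilizer_iff]
          change act k N σ x0 = x0
          rw [hx0, act_xx, hσ0]
        exact h5 hψ
      rw [IntermediateField.mem_fixingSubgroup_iff]
      intro y hy
      exact (IntermediateField.mem_fixedField_iff _ _).mp (h5 hy) _ (Subgroup.mem_zpowers _)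
    · intro h φ hφ
      obtain ⟨σ, rfl⟩ := (FixedPoints.toAlgAut_surjective A (FF k N)) φ
      change act k N σ.1 m = m
      refine h _ σ.2 ?_
      have h1 := (IntermediateField.mem_fixingSubgroup_iff _ _).mp hφ x0
        (IntermediateField.mem_adjoin_simple_self L x0)
      have h4 : act k N σ.1 x0 = x0 := h1
      rw [hx0, act_xx] at h4
      exact hx h4
  refine ⟨M.toSubfield, (g0 : M →+* RatFunc (FF k N)), hMfix, hgclosed, ?_⟩
  intro c hcM
  have hc : algebraMap k (FF k N) c ∈ L := by
    rw [hL]
    intro σ _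
    exact (act k N σ).commutes c
  have h4 : (g0 : M →+* RatFunc (FF k N)) (algebraMap L M ⟨algebraMap k (FF k N) c, hc⟩) =
      u (ΘL ⟨algebraMap k (FF k N) c, hc⟩) := g0.commutes _
  have h5 : ΘL ⟨algebraMap k (FF k N) c, hc⟩ = RatFunc.C (algebraMap k (FF k N) c) := by
    apply (jj (F := FF k N)).injective
    rw [hΘL, jj_C, RingHom.comp_apply, RingHom.comp_apply]
    congr 1
    exact hΨk c
  rw [h5, huC] at h4
  exact h4

/-- **Even case.** -/
theorem closed_even (k : Type) [Field k] [CharZero k] (n : ℕ) (heven : Even n) (h2n : 2 ≤ n) :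
    ∃ Θ : FractionRing (altInv k n) →+* RatFunc (FF k (n + 1)),
      (∀ c : k, Θ (algebraMap k _ c) = RatFunc.C (algebraMap k _ c)) ∧ Closed Θ := by
  classical
  obtain ⟨M, g0, hMfix, hgclosed, hgk⟩ := even_core k (n + 1) heven.add_one (by omega) 0
  have hx := xx_injective k (n + 1)
  -- the embedding of the invariants in n variables in M
  have hkap : ∀ w, incS k n (inclAlt k n w) ∈ M := by
    intro w
    rw [hMfix]
    intro σ hσ hσ0
    obtain ⟨⟨p, τ⟩, hpτ⟩ := Equiv.Perm.decomposeFin.symm.surjective σ
    have hp : p = 0 := by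
      rw [← hpτ, Equiv.Perm.decomposeFin_symm_apply_zero] at hσ0
      exact hσ0
    subst hp
    have hsign : Equiv.Perm.sign τ = 1 := by
      have h1 := Equiv.Perm.mem_alternatingGroup.mp hσ
      rw [← hpτ, Equiv.Perm.decomposeFin.symm_sign] at h1
      simpa using h1
    rw [← hpτ, act_incS]
    congr 1
    exact (mem_range_inclAlt k n _).mp ⟨w, rfl⟩ τ (Equiv.Perm.mem_alternatingGroup.mpr hsign)
  let κ : FractionRing (altInv k n) →+* M :=
    ((incS k n).comp (inclAlt k n)).codRestrict M hkap
  have hκ : ∀ w, ((κ w : M) : FF k (n + 1)) = incS k n (inclAlt k n w) := fun _ => rfl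
  have hκc : Closed κ := by
    rintro e ⟨p, hp, hpe⟩
    obtain ⟨θ, hθ⟩ := closed_incS k n (e : FF k (n + 1)) ⟨p.map (inclAlt k n),
      (Polynomial.map_ne_zero_iff (inclAlt k n).injective).mpr hp, by
        rw [eval₂_map]
        have h1 := congrArg M.subtype hpe
        rw [map_zero, Polynomial.hom_eval₂] at h1
        exact h1⟩
    have hθfix : ∀ τ ∈ alternatingGroup (Fin n), act k n τ θ = θ := by
      intro τ hτ
      apply (incS k n).injective
      rw [← act_incS, hθ]
      refine (hMfix _).mp e.2 _ ?_ ?_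
      · rw [Equiv.Perm.mem_alternatingGroup, Equiv.Perm.decomposeFin.symm_sign]
        simpa using Equiv.Perm.mem_alternatingGroup.mp hτ
      · rw [Equiv.Perm.decomposeFin_symm_apply_zero]
    obtain ⟨w, hw⟩ := (mem_range_inclAlt k n θ).mpr hθfix
    refine ⟨w, ?_⟩
    apply Subtype.ext
    rw [hκ, hw, hθ]
  refine ⟨g0.comp κ, ?_, hκc.comp hgclosed⟩
  intro c
  have hc : algebraMap k (FF k (n + 1)) c ∈ M := by
    rw [hMfix]
    intro σ _ _
    exact (act k (n + 1) σ).commutes c
  have h1 : κ (algebraMap k _ c) = ⟨algebraMap k (FF k (n + 1)) c, hc⟩ := by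
    apply Subtype.ext
    rw [hκ, inclAlt_k, incS_k]
  rw [RingHom.comp_apply, h1]
  exact hgk c hc

end Even

end Pool.Agent.LibHPAlt
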