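import Pool.Agent.LibHPAlt.A8
import Pool.Agent.LibHP.F2

set_option autoImplicit false
open Polynomial

namespace Pool.Agent.LibHPAlt

/-- **The field of invariants of the alternating group embeds in a field of rational functions,
with algebraically closed image.** -/
theorem exists_closed_embedding (k : Type) [Field k] [CharZero k] (n : ℕ) :
    ∃ (N : ℕ) (Θ : FractionRing (altInv k n) →+* LibHP.RF k N),
      (∀ c : k, Θ (algebraMap k _ c) = algebraMap k _ c) ∧ Closed Θ := by
  rcases Nat.lt_or_ge n 2 with h2 | h2
  · refine ⟨n, inclAlt k n, inclAlt_k k n, ?_⟩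
    rintro e -
    refine (mem_range_inclAlt k n e).mpr fun σ _ => ?_
    have h1 : σ = 1 := by
      have : Subsingleton (Fin n) := by
        interval_cases n <;> infer_instance
      exact Subsingleton.elim _ _
    rw [h1]
    simp
  · have key : ∃ (N : ℕ) (Θ : FractionRing (altInv k n) →+* RatFunc (FF k N)),
        (∀ c : k, Θ (algebraMap k _ c) = RatFunc.C (algebraMap k _ c)) ∧ Closed Θ := by
      rcases Nat.even_or_odd n with he | ho
      · exact ⟨n + 1, closed_even k n he h2⟩
      · refine ⟨n, closed_odd k n ho ?_⟩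
        obtain ⟨m, hm⟩ := ho
        omega
    obtain ⟨N, Θ, hk, hcl⟩ := key
    obtain ⟨ε⟩ := LibHP.exists_algEquiv_ratFunc k N
    refine ⟨N + 1, (ε : RatFunc (LibHP.RF k N) →+* LibHP.RF k (N + 1)).comp Θ, ?_, ?_⟩
    · intro c
      rw [RingHom.comp_apply, hk]
      have h1 : (RatFunc.C (algebraMap k (FF k N) c) : RatFunc (FF k N)) =
          algebraMap k (RatFunc (LibHP.RF k N)) c := by
        rw [IsScalarTower.algebraMap_apply k (LibHP.RF k N) (RatFunc (LibHP.RF k N)),
          RatFunc.algebraMap_eq_C]
      rw [h1]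
      exact ε.commutes c
    · refine hcl.comp ?_
      intro e _
      exact ⟨ε.symm e, ε.apply_symm_apply e⟩

end Pool.Agent.LibHPAlt
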